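import Mathlib

set_option autoImplicit false

open Finset SimpleGraph

namespace Pool.Agent.H49.Glue

variable {V W : Type}

/-- `φ` is a copy of `H` in `G`: an injective map of the vertices that maps edges to edges. -/
def Places (H : SimpleGraph W) (G : SimpleGraph V) (φ : W → V) : Prop :=
  Function.Injective φ ∧ ∀ a b, H.Adj a b → G.Adj (φ a) (φ b)

/-- The edge `x y` is `τ`-robust in `G`: for every set `T` of at most `τ` vertices other than
`x` and `y` there is a copy of `H` in `G` that contains the edge `x y` and no vertex of `T`. -/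
def Robust (H : SimpleGraph W) (τ : ℕ) (G : SimpleGraph V) (x y : V) : Prop :=
  ∀ T : Finset V, T.card ≤ τ → x ∉ T → y ∉ T →
    ∃ φ : W → V, Places H G φ ∧ (∃ a b, H.Adj a b ∧ φ a = x ∧ φ b = y) ∧ ∀ w, φ w ∉ T

theorem Places.mono {H : SimpleGraph W} {G K : SimpleGraph V} {φ : W → V} (h : Places H K φ)
    (hle : K ≤ G) : Places H G φ :=
  ⟨h.1, fun a b hab => hle (h.2 a b hab)⟩

theorem Robust.mono {H : SimpleGraph W} {τ : ℕ} {G K : SimpleGraph V} {x y : V}
    (h : Robust H τ K x y) (hle : K ≤ G) : Robust H τ G x y := by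
  intro T hT hx hy
  obtain ⟨φ, h1, h2, h3⟩ := h T hT hx hy
  exact ⟨φ, h1.mono hle, h2, h3⟩

theorem places_not_free {H : SimpleGraph W} {G : SimpleGraph V} {φ : W → V}
    (h : Places H G φ) : H ⊑ G :=
  ⟨⟨⟨φ, fun {a b} hab => h.2 a b hab⟩, h.1⟩⟩

theorem places_of_contained {H : SimpleGraph W} {G : SimpleGraph V} (h : H ⊑ G) :
    ∃ φ : W → V, Places H G φ := by
  obtain ⟨f⟩ := h
  exact ⟨f, f.injective, fun a b hab => f.toHom.map_adj hab⟩

/-- The robust part of a graph and small sets that meet the copies through the deleted edges. -/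
theorem core (H : SimpleGraph W) (τ : ℕ) [Finite V] (m : ℕ) : ∀ G : SimpleGraph V,
    G.edgeSet.ncard ≤ m → ∃ K ≤ G, (∀ x y, K.Adj x y → Robust H τ K x y) ∧
      ∃ T : Sym2 V → Finset V, (∀ e, (T e).card ≤ τ) ∧ (∀ e, ∀ x ∈ e, x ∉ T e) ∧
        ∀ φ, Places H G φ → (∃ a b, H.Adj a b ∧ ¬ K.Adj (φ a) (φ b)) →
          ∃ a b w, H.Adj a b ∧ ¬ K.Adj (φ a) (φ b) ∧ φ w ∈ T s(φ a, φ b) := by
  classical
  induction m with
  | zero =>
    intro G hG
    refine ⟨G, le_rfl, ?_, fun _ => ∅, by simp, by simp, ?_⟩
    · intro x y hxy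
      have h0 : G.edgeSet.ncard = 0 := by omega
      rw [Set.ncard_eq_zero] at h0
      exfalso
      have : s(x, y) ∈ G.edgeSet := hxy
      rw [h0] at this
      exact this
    · rintro φ hφ ⟨a, b, hab, hn⟩
      exact absurd (hφ.2 a b hab) hn
  | succ m ih =>
    intro G hG
    by_cases hall : ∀ x y, G.Adj x y → Robust H τ G x y
    · refine ⟨G, le_rfl, hall, fun _ => ∅, by simp, by simp, ?_⟩
      rintro φ hφ ⟨a, b, hab, hn⟩
      exact absurd (hφ.2 a b hab) hn
    · push Not at hall
      obtain ⟨x, y, hxy, hnr⟩ := hall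
      unfold Robust at hnr
      push Not at hnr
      obtain ⟨T0, hT0, hxT, hyT, hT0'⟩ := hnr
      set G1 : SimpleGraph V := G.deleteEdges {s(x, y)} with hG1
      have hlt : G1.edgeSet.ncard < G.edgeSet.ncard := by
        apply Set.ncard_lt_ncard _ (Set.toFinite _)
        rw [hG1, edgeSet_deleteEdges]
        refine ⟨Set.sdiff_subset, fun hsub => ?_⟩
        have h1 : s(x, y) ∈ G.edgeSet := hxy
        exact (hsub h1).2 rfl
      obtain ⟨K, hK, hKr, T1, hT1, hT1', hT1''⟩ := ih G1 (by omega)
      have hG1G : G1 ≤ G := deleteEdges_le _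
      have hKxy : ∀ u v, K.Adj u v → s(u, v) ≠ s(x, y) := by
        intro u v huv
        have := hK huv
        rw [hG1, deleteEdges_adj] at this
        exact this.2
      refine ⟨K, hK.trans hG1G, hKr, Function.update T1 s(x, y) T0, ?_, ?_, ?_⟩
      · intro e
        by_cases he : e = s(x, y)
        · subst he
          simpa using hT0
        · rw [Function.update_of_ne he]
          exact hT1 e
      · intro e z hz
        by_cases he : e = s(x, y)
        · subst he
          rw [Function.update_self]
          rcases Sym2.mem_iff.1 hz with h | h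
          · rw [h]; exact hxT
          · rw [h]; exact hyT
        · rw [Function.update_of_ne he]
          exact hT1' e z hz
      · rintro φ hφ ⟨a, b, hab, hn⟩
        by_cases hthrough : ∃ a b, H.Adj a b ∧ φ a = x ∧ φ b = y
        · obtain ⟨w, hw⟩ := hT0' φ hφ hthrough
          obtain ⟨a', b', hab', ha', hb'⟩ := hthrough
          refine ⟨a', b', w, hab', ?_, ?_⟩
          · intro hadj
            exact hKxy _ _ hadj (by rw [ha', hb'])
          · rw [ha', hb', Function.update_self]
            exact hw
        · push Not at hthrough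
          have hne : ∀ a b, H.Adj a b → s(φ a, φ b) ≠ s(x, y) := by
            intro a b hab heq
            rcases Sym2.eq_iff.1 heq with ⟨h1, h2⟩ | ⟨h1, h2⟩
            · exact hthrough a b hab h1 h2
            · exact hthrough b a hab.symm h2 h1
          have hφ1 : Places H G1 φ := by
            refine ⟨hφ.1, fun a b hab => ?_⟩
            rw [hG1, deleteEdges_adj]
            exact ⟨hφ.2 a b hab, hne a b hab⟩
          obtain ⟨a', b', w, hab', hn', hw⟩ := hT1'' φ hφ1 ⟨a, b, hab, hn⟩
          refine ⟨a', b', w, hab', hn', ?_⟩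
          rw [Function.update_of_ne (hne a' b' hab')]
          exact hw

/-! ### Counting colourings -/

section Colourings

variable [Fintype V] [DecidableEq V]

theorem card_update {q : ℕ} (P : (V → Fin q) → Prop) [DecidablePred P] (x t : V) (hxt : x ≠ t)
    (hP : ∀ c s, P (Function.update c t s) ↔ P c) :
    q * (univ.filter fun c : V → Fin q => P c ∧ c t = c x).card =
      (univ.filter fun c : V → Fin q => P c).card := by
  have e : {c : V → Fin q // P c ∧ c t = c x} × Fin q ≃ {c : V → Fin q // P c} :=
    { toFun := fun p => ⟨Function.update p.1.1 t p.2, (hP _ _).2 p.1.2.1⟩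
      invFun := fun c => (⟨Function.update c.1 t (c.1 x), (hP _ _).2 c.2, by
        rw [Function.update_self, Function.update_of_ne hxt]⟩, c.1 t)
      left_inv := by
        rintro ⟨⟨c, hc, hcx⟩, s⟩
        simp only [Prod.mk.injEq, Subtype.mk.injEq]
        refine ⟨?_, by simp⟩
        rw [Function.update_idem, Function.update_of_ne hxt, ← hcx, Function.update_eq_self]
      right_inv := by
        rintro ⟨c, hc⟩
        simp only [Subtype.mk.injEq]
        rw [Function.update_idem, Function.update_eq_self] }
  have h1 := Fintype.card_congr e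
  rw [Fintype.card_prod, Fintype.card_subtype, Fintype.card_subtype, Fintype.card_fin] at h1
  rw [mul_comm]
  exact h1

/-- The edge `e` has one colour, and no vertex of `T e` has this colour. -/
def Good {q : ℕ} (T : Sym2 V → Finset V) (c : V → Fin q) (e : Sym2 V) : Prop :=
  (∀ x ∈ e, ∀ y ∈ e, c x = c y) ∧ ∀ t ∈ T e, ∀ x ∈ e, c t ≠ c x

open Classical in
theorem card_good {q τ : ℕ} (T : Sym2 V → Finset V) (hT : ∀ e, (T e).card ≤ τ)
    (hT' : ∀ e, ∀ x ∈ e, x ∉ T e) (x y : V) (hxy : x ≠ y) :
    q * q ^ Fintype.card V ≤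
      q ^ 2 * (univ.filter fun c : V → Fin q => Good T c s(x, y)).card +
        τ * q ^ Fintype.card V := by
  have hN : (univ : Finset (V → Fin q)).card = q ^ Fintype.card V := by
    rw [Finset.card_univ, Fintype.card_fun, Fintype.card_fin]
  have hA : q * (univ.filter fun c : V → Fin q => c y = c x).card = q ^ Fintype.card V := by
    have h := card_update (q := q) (fun _ => True) x y hxy (by simp)
    simp only [true_and, Finset.filter_true] at h
    rw [h, hN]
  have hB : ∀ t ∈ T s(x, y),
      q * (univ.filter fun c : V → Fin q => c y = c x ∧ c t = c x).card =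
        (univ.filter fun c : V → Fin q => c y = c x).card := by
    intro t ht
    have hxt : x ≠ t := by
      rintro rfl
      exact hT' s(x, y) x (Sym2.mem_mk_left x y) ht
    have hyt : y ≠ t := by
      rintro rfl
      exact hT' s(x, y) y (Sym2.mem_mk_right x y) ht
    apply card_update (q := q) (fun c => c y = c x) x t hxt
    intro c s
    rw [Function.update_of_ne hyt, Function.update_of_ne hxt]
  have hsub : (univ.filter fun c : V → Fin q => c y = c x) ⊆
      (univ.filter fun c : V → Fin q => Good T c s(x, y)) ∪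
        (T s(x, y)).biUnion fun t => univ.filter fun c : V → Fin q => c y = c x ∧ c t = c x := by
    intro c hc
    rw [Finset.mem_filter] at hc
    rw [Finset.mem_union, Finset.mem_filter, Finset.mem_biUnion]
    by_cases hg : ∃ t ∈ T s(x, y), c t = c x
    · right
      obtain ⟨t, ht, htx⟩ := hg
      exact ⟨t, ht, by rw [Finset.mem_filter]; exact ⟨Finset.mem_univ _, hc.2, htx⟩⟩
    · left
      push Not at hg
      refine ⟨Finset.mem_univ _, ?_, ?_⟩
      · intro u hu v hv
        rcases Sym2.mem_iff.1 hu with h | h <;> rcases Sym2.mem_iff.1 hv with h' | h' <;>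
          rw [h, h']
        · exact hc.2.symm
        · exact hc.2
      · intro t ht u hu
        rcases Sym2.mem_iff.1 hu with h | h <;> rw [h]
        · exact hg t ht
        · rw [hc.2]
          exact hg t ht
  have h1 := (Finset.card_le_card hsub).trans (Finset.card_union_le _ _)
  have h2 : ((T s(x, y)).biUnion fun t =>
      univ.filter fun c : V → Fin q => c y = c x ∧ c t = c x).card ≤
      ∑ t ∈ T s(x, y), (univ.filter fun c : V → Fin q => c y = c x ∧ c t = c x).card :=
    Finset.card_biUnion_le
  have h3 : q ^ 2 * ∑ t ∈ T s(x, y),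
      (univ.filter fun c : V → Fin q => c y = c x ∧ c t = c x).card ≤
      τ * q ^ Fintype.card V := by
    rw [Finset.mul_sum]
    calc ∑ t ∈ T s(x, y), q ^ 2 *
          (univ.filter fun c : V → Fin q => c y = c x ∧ c t = c x).card
        = ∑ t ∈ T s(x, y), q ^ Fintype.card V := by
          apply Finset.sum_congr rfl
          intro t ht
          rw [pow_two, mul_assoc, hB t ht, hA]
      _ = (T s(x, y)).card * q ^ Fintype.card V := by
          rw [Finset.sum_const, smul_eq_mul]
      _ ≤ τ * q ^ Fintype.card V := Nat.mul_le_mul_right _ (hT _)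
  calc q * q ^ Fintype.card V
      = q ^ 2 * (univ.filter fun c : V → Fin q => c y = c x).card := by
        rw [← hA]; ring
    _ ≤ q ^ 2 * ((univ.filter fun c : V → Fin q => Good T c s(x, y)).card +
        ∑ t ∈ T s(x, y), (univ.filter fun c : V → Fin q => c y = c x ∧ c t = c x).card) :=
        Nat.mul_le_mul_left _ (h1.trans (Nat.add_le_add_left h2 _))
    _ ≤ _ := by
        rw [mul_add]
        exact Nat.add_le_add_left h3 _

open Classical in
/-- Averaging over the colourings. -/
theorem sum_good {q τ : ℕ} (T : Sym2 V → Finset V) (hT : ∀ e, (T e).card ≤ τ)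
    (hT' : ∀ e, ∀ x ∈ e, x ∉ T e) (D : SimpleGraph V) :
    q * q ^ Fintype.card V * D.edgeFinset.card ≤
      q ^ 2 * ∑ c : V → Fin q, (D.edgeFinset.filter fun e => Good T c e).card +
        τ * q ^ Fintype.card V * D.edgeFinset.card := by
  have hswap : ∑ c : V → Fin q, (D.edgeFinset.filter fun e => Good T c e).card =
      ∑ e ∈ D.edgeFinset, (univ.filter fun c : V → Fin q => Good T c e).card := by
    simp_rw [Finset.card_filter]
    exact Finset.sum_comm
  rw [hswap]
  have h1 : ∀ e ∈ D.edgeFinset, q * q ^ Fintype.card V ≤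
      q ^ 2 * (univ.filter fun c : V → Fin q => Good T c e).card +
        τ * q ^ Fintype.card V := by
    intro e he
    induction e using Sym2.ind with
    | _ x y =>
      have hxy : D.Adj x y := by simpa using he
      exact card_good T hT hT' x y hxy.ne
  have h2 := Finset.sum_le_sum h1
  rw [Finset.sum_const, smul_eq_mul, Finset.sum_add_distrib, ← Finset.mul_sum,
    Finset.sum_const, smul_eq_mul] at h2
  calc q * q ^ Fintype.card V * D.edgeFinset.card
      = D.edgeFinset.card * (q * q ^ Fintype.card V) := by ring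
    _ ≤ _ := h2
    _ = _ := by ring

end Colourings

end Pool.Agent.H49.Glue
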