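import Mathlib
import Pool.Agent.H49.Glue.Clean

set_option autoImplicit false

open Finset SimpleGraph

namespace Pool.Agent.H49.Glue

variable {V W : Type}

/-- The subgraph of the edges of `D` that are good for the colouring `c`. -/
def goodGraph {q : ℕ} (D : SimpleGraph V) (T : Sym2 V → Finset V) (c : V → Fin q) :
    SimpleGraph V where
  Adj x y := D.Adj x y ∧ Good T c s(x, y)
  symm := ⟨fun x y h => by
    refine ⟨h.1.symm, ?_⟩
    rw [Sym2.eq_swap]
    exact h.2⟩
  loopless := ⟨fun x h => D.loopless.irrefl x h.1⟩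

theorem goodGraph_le {q : ℕ} (D : SimpleGraph V) (T : Sym2 V → Finset V) (c : V → Fin q) :
    goodGraph D T c ≤ D := fun _ _ h => h.1

theorem same_colour {q : ℕ} {D : SimpleGraph V} {T : Sym2 V → Finset V} {c : V → Fin q}
    {H : SimpleGraph W} (hH : H.Preconnected) {φ : W → V}
    (hφ : Places H (goodGraph D T c) φ) (a b : W) : c (φ a) = c (φ b) := by
  obtain ⟨p⟩ := hH a b
  induction p with
  | nil => rfl
  | cons h _ ih =>
    rw [← ih]
    exact (hφ.2 _ _ h).2.1 _ (Sym2.mem_mk_left _ _) _ (Sym2.mem_mk_right _ _)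

/-- The good graph contains no copy of `H`. -/
theorem goodGraph_free {q : ℕ} {H : SimpleGraph W} (hH : H.Preconnected)
    (hne : ∃ a b, H.Adj a b) {G K : SimpleGraph V} {T : Sym2 V → Finset V}
    (hT : ∀ φ, Places H G φ → (∃ a b, H.Adj a b ∧ ¬ K.Adj (φ a) (φ b)) →
          ∃ a b w, H.Adj a b ∧ ¬ K.Adj (φ a) (φ b) ∧ φ w ∈ T s(φ a, φ b))
    (c : V → Fin q) : H.Free (goodGraph (G \ K) T c) := by
  intro hcon
  obtain ⟨φ, hφ⟩ := places_of_contained hcon
  have hG : Places H G φ := hφ.mono ((goodGraph_le _ _ _).trans sdiff_le)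
  obtain ⟨a0, b0, hab0⟩ := hne
  have hn0 : ¬ K.Adj (φ a0) (φ b0) := by
    have := (hφ.2 _ _ hab0).1
    rw [sdiff_adj] at this
    exact this.2
  obtain ⟨a, b, w, hab, _, hw⟩ := hT φ hG ⟨a0, b0, hab0, hn0⟩
  have hgood := (hφ.2 _ _ hab).2
  exact hgood.2 _ hw (φ a) (Sym2.mem_mk_left _ _) (same_colour hH hφ w a)

open Classical in
theorem card_filter_good [Fintype V] {q : ℕ} (D : SimpleGraph V) (T : Sym2 V → Finset V)
    (c : V → Fin q) :
    (D.edgeFinset.filter fun e => Good T c e).card = (goodGraph D T c).edgeSet.ncard := by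
  rw [← Set.ncard_coe_finset]
  congr 1
  ext e
  induction e using Sym2.ind with
  | _ x y =>
    rw [Finset.mem_coe, Finset.mem_filter, mem_edgeFinset]
    rfl

open Classical in
theorem ncard_edgeSet [Fintype V] (D : SimpleGraph V) :
    D.edgeSet.ncard = D.edgeFinset.card := by
  rw [← Set.ncard_coe_finset]
  congr 1
  ext e
  simp

theorem ncard_le_extremalNumber [Fintype V] {H : SimpleGraph W} {D : SimpleGraph V}
    (h : H.Free D) : D.edgeSet.ncard ≤ extremalNumber (Fintype.card V) H := by
  classical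
  rw [ncard_edgeSet]
  exact card_edgeFinset_le_extremalNumber h

theorem ncard_sdiff_add [Finite V] {G K : SimpleGraph V} (hK : K ≤ G) :
    G.edgeSet.ncard = K.edgeSet.ncard + (G \ K).edgeSet.ncard := by
  have h : G.edgeSet = K.edgeSet ∪ (G \ K).edgeSet := by
    ext e
    induction e using Sym2.ind with
    | _ x y =>
      rw [Set.mem_union]
      simp only [mem_edgeSet, sdiff_adj]
      constructor
      · intro h
        by_cases hk : K.Adj x y
        · exact Or.inl hk
        · exact Or.inr ⟨h, hk⟩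
      · rintro (h | h)
        · exact hK h
        · exact h.1
  have hd : Disjoint K.edgeSet (G \ K).edgeSet := by
    rw [Set.disjoint_left]
    intro e
    induction e using Sym2.ind with
    | _ x y =>
      simp only [mem_edgeSet, sdiff_adj]
      intro h1 h2
      exact h2.2 h1
  rw [← Set.ncard_union_eq hd (Set.toFinite _) (Set.toFinite _), ← h]

/-- **Robust subgraphs.** By deleting at most `4 τ ex(n, H)` edges one can make all edges
`τ`-robust. -/
theorem exists_robust [Fintype V] (H : SimpleGraph W) (hH : H.Preconnected)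
    (hne : ∃ a b, H.Adj a b) (τ : ℕ) (hτ : 1 ≤ τ) (G : SimpleGraph V) :
    ∃ K ≤ G, G.edgeSet.ncard ≤
        K.edgeSet.ncard + 4 * τ * extremalNumber (Fintype.card V) H ∧
      ∀ x y, K.Adj x y → Robust H τ K x y := by
  classical
  obtain ⟨K, hK, hKr, T, hT1, hT2, hT3⟩ := core H τ _ G le_rfl
  refine ⟨K, hK, ?_, hKr⟩
  rw [ncard_sdiff_add hK]
  apply Nat.add_le_add_left
  have h1 := sum_good (q := 2 * τ) T hT1 hT2 (G \ K)
  simp_rw [card_filter_good] at h1
  rw [← ncard_edgeSet] at h1
  have h2 : ∀ c : V → Fin (2 * τ), (goodGraph (G \ K) T c).edgeSet.ncard ≤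
      extremalNumber (Fintype.card V) H := fun c =>
    ncard_le_extremalNumber (goodGraph_free hH hne hT3 c)
  have h3 : ∑ c : V → Fin (2 * τ), (goodGraph (G \ K) T c).edgeSet.ncard ≤
      (2 * τ) ^ Fintype.card V * extremalNumber (Fintype.card V) H := by
    calc _ ≤ ∑ c : V → Fin (2 * τ), extremalNumber (Fintype.card V) H :=
          Finset.sum_le_sum fun c _ => h2 c
      _ = _ := by
          rw [Finset.sum_const, smul_eq_mul, Finset.card_univ, Fintype.card_fun,
            Fintype.card_fin]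
  have hpos : 0 < (2 * τ) ^ Fintype.card V := by positivity
  generalize (2 * τ) ^ Fintype.card V = N at *
  generalize extremalNumber (Fintype.card V) H = E at *
  generalize (G \ K).edgeSet.ncard = d at *
  generalize (∑ c : V → Fin (2 * τ), (goodGraph (G \ K) T c).edgeSet.ncard) = S at *
  have h4 : (2 * τ) ^ 2 * S ≤ (2 * τ) ^ 2 * (N * E) := Nat.mul_le_mul_left _ h3
  have h5 : (τ * N) * d ≤ (τ * N) * (4 * τ * E) := by
    have e1 : 2 * τ * N * d = τ * N * d + τ * N * d := by ring
    have e2 : (2 * τ) ^ 2 * (N * E) = (τ * N) * (4 * τ * E) := by ring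
    omega
  exact Nat.le_of_mul_le_mul_left h5 (by positivity)

end Pool.Agent.H49.Glue
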