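import Mathlib
import Pool.Agent.H49.Glue.Robust

set_option autoImplicit false

open Finset SimpleGraph

namespace Pool.Agent.H49.Glue

variable {V W U : Type}

/-- The vertex `u` belongs to one of the first `i` copies `f 0, …, f (i - 1)`. -/
def Old (f : ℕ → W → U) (i : ℕ) (u : U) : Prop := ∃ j < i, ∃ w, f j w = u

/-- `F` is a tree of copies of `H`: it is the union of copies `f 0, …, f (m - 1)`, `m ≥ 1`, of `H`
(each `f i` is injective, every vertex of `F` is in one of the copies, and the edges of `F` are
the edges of the copies), and each copy shares with the union of the copies before it at most one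
vertex, or exactly the two ends of an edge of both. -/
def IsTreeOf (H : SimpleGraph W) (F : SimpleGraph U) : Prop :=
  ∃ (m : ℕ) (f : ℕ → W → U), 0 < m ∧ (∀ i < m, Function.Injective (f i)) ∧
    (∀ u, Old f m u) ∧
    (∀ u v, F.Adj u v ↔ ∃ i < m, ∃ a b, H.Adj a b ∧ f i a = u ∧ f i b = v) ∧
    ∀ i < m,
      (∀ a b, Old f i (f i a) → Old f i (f i b) → a = b) ∨
      ∃ a b, H.Adj a b ∧ (∃ j < i, ∃ a' b', H.Adj a' b' ∧ f j a' = f i a ∧ f j b' = f i b) ∧
        ∀ w, Old f i (f i w) → w = a ∨ w = b

/-- The automorphisms of `H` act transitively on the ordered pairs of adjacent vertices. -/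
def ArcTransitive (H : SimpleGraph W) : Prop :=
  ∀ a b c d, H.Adj a b → H.Adj c d → ∃ σ : H ≃g H, σ a = c ∧ σ b = d

section

variable {H : SimpleGraph W} {K : SimpleGraph V} {τ : ℕ}

theorem exists_fresh [DecidableEq V] (hdeg : ∀ a b, H.Adj a b → ∃ b', b' ≠ b ∧ H.Adj a b')
    (hK : ∀ x y, K.Adj x y → Robust H τ K x y) (x : V) (hx : ∃ z, K.Adj x z) (T : Finset V)
    (hT : T.card ≤ τ) : ∃ y, K.Adj x y ∧ y ∉ T := by
  obtain ⟨z, hz⟩ := hx
  by_cases hzT : z ∉ T
  · exact ⟨z, hz, hzT⟩
  · obtain ⟨φ, hφ, ⟨a, b, hab, ha, hb⟩, hav⟩ := hK x z hz ((T.erase x).erase z)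
      (((Finset.card_le_card (Finset.erase_subset _ _)).trans
        (Finset.card_le_card (Finset.erase_subset _ _))).trans hT) (by simp) (by simp)
    obtain ⟨b', hb', hab'⟩ := hdeg a b hab
    refine ⟨φ b', ?_, ?_⟩
    · rw [← ha]
      exact hφ.2 a b' hab'
    · intro hmem
      apply hav b'
      rw [Finset.mem_erase, Finset.mem_erase]
      refine ⟨?_, ?_, hmem⟩
      · rw [← hb]
        exact fun h => hb' (hφ.1 h)
      · rw [← ha]
        exact fun h => (hab'.ne) (hφ.1 h).symm

theorem exists_at_arc (harc : ArcTransitive H)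
    (hK : ∀ x y, K.Adj x y → Robust H τ K x y) (x y : V) (hxy : K.Adj x y) (T : Finset V)
    (hT : T.card ≤ τ) (hx : x ∉ T) (hy : y ∉ T) (a b : W) (hab : H.Adj a b) :
    ∃ φ, Places H K φ ∧ φ a = x ∧ φ b = y ∧ ∀ w, φ w ∉ T := by
  obtain ⟨φ, hφ, ⟨c, d, hcd, hc, hd⟩, hav⟩ := hK x y hxy T hT hx hy
  obtain ⟨σ, hσa, hσb⟩ := harc a b c d hab hcd
  refine ⟨φ ∘ σ, ⟨hφ.1.comp σ.injective, ?_⟩, ?_, ?_, fun w => hav (σ w)⟩
  · intro u v huv
    exact hφ.2 _ _ (σ.map_adj_iff.2 huv)
  · rw [Function.comp_apply, hσa, hc]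
  · rw [Function.comp_apply, hσb, hd]

theorem exists_at_vertex [DecidableEq V] (harc : ArcTransitive H)
    (hiso : ∀ a, ∃ b, H.Adj a b)
    (hdeg : ∀ a b, H.Adj a b → ∃ b', b' ≠ b ∧ H.Adj a b')
    (hK : ∀ x y, K.Adj x y → Robust H τ K x y) (x : V) (hx : ∃ z, K.Adj x z) (T : Finset V)
    (hT : T.card ≤ τ) (hxT : x ∉ T) (a : W) :
    ∃ φ, Places H K φ ∧ φ a = x ∧ ∀ w, φ w ∉ T := by
  obtain ⟨y, hxy, hyT⟩ := exists_fresh hdeg hK x hx T hT
  obtain ⟨b, hab⟩ := hiso a
  obtain ⟨φ, h1, h2, _, h4⟩ := exists_at_arc harc hK x y hxy T hT hxT hyT a b hab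
  exact ⟨φ, h1, h2, h4⟩

theorem exists_free [DecidableEq V] [Nonempty W] (harc : ArcTransitive H)
    (hiso : ∀ a, ∃ b, H.Adj a b)
    (hdeg : ∀ a b, H.Adj a b → ∃ b', b' ≠ b ∧ H.Adj a b')
    (hK : ∀ x y, K.Adj x y → Robust H τ K x y) (hne : ∃ x y, K.Adj x y) (T : Finset V)
    (hT : T.card ≤ τ) : ∃ φ, Places H K φ ∧ ∀ w, φ w ∉ T := by
  obtain ⟨x, z, hxz⟩ := hne
  obtain ⟨y, hxy, hyT⟩ := exists_fresh hdeg hK x ⟨z, hxz⟩ T hT
  obtain ⟨φ, h1, _, h3⟩ := exists_at_vertex harc hiso hdeg hK y ⟨x, hxy.symm⟩ T hT hyT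
    (Classical.arbitrary W)
  exact ⟨φ, h1, h3⟩

/-- Trees of copies of an arc-transitive graph embed greedily in a graph with robust edges. -/
theorem embed [Finite U] [Nonempty W] (harc : ArcTransitive H)
    (hiso : ∀ a, ∃ b, H.Adj a b)
    (hdeg : ∀ a b, H.Adj a b → ∃ b', b' ≠ b ∧ H.Adj a b')
    (hK : ∀ x y, K.Adj x y → Robust H τ K x y) (hne : ∃ x y, K.Adj x y)
    (F : SimpleGraph U) (hF : IsTreeOf H F) (hτ : Nat.card U ≤ τ + 1) : F ⊑ K := by
  classical
  have := Fintype.ofFinite U
  rw [Nat.card_eq_fintype_card] at hτ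
  obtain ⟨m, f, hm, hinj, hcov, hadj, hatt⟩ := hF
  have key : ∀ k ≤ m, ∃ g : U → V, (∀ u v, Old f k u → Old f k v → g u = g v → u = v) ∧
      ∀ j < k, ∀ a b, H.Adj a b → K.Adj (g (f j a)) (g (f j b)) := by
    intro k
    induction k with
    | zero =>
      intro _
      obtain ⟨x, y, _⟩ := hne
      refine ⟨fun _ => x, ?_, ?_⟩
      · rintro u v ⟨j, hj, _⟩
        omega
      · intro j hj
        omega
    | succ k ih =>
      intro hk
      obtain ⟨g, hg1, hg2⟩ := ih (by omega)
      have hfk : Function.Injective (f k) := hinj k (by omega)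
      set T : Finset V := (univ.filter fun u => Old f k u).image g with hTdef
      have hnew : ∃ w, ¬ Old f k (f k w) := by
        by_contra hcon
        push Not at hcon
        obtain ⟨b0, hb0⟩ := hiso (Classical.arbitrary W)
        rcases hatt k (by omega) with h1 | ⟨a, b, hab, _, hold⟩
        · exact hb0.ne (h1 _ _ (hcon _) (hcon _))
        · obtain ⟨b', hb', hab'⟩ := hdeg a b hab
          rcases hold b' (hcon b') with h | h
          · exact hab'.ne h.symm
          · exact hb' h
      have hTcard : T.card ≤ τ := by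
        obtain ⟨w, hw⟩ := hnew
        have h1 : (univ.filter fun u => Old f k u).card < (univ : Finset U).card := by
          apply Finset.card_lt_card
          rw [Finset.filter_ssubset]
          exact ⟨f k w, Finset.mem_univ _, hw⟩
        rw [Finset.card_univ] at h1
        have h2 : T.card ≤ (univ.filter fun u => Old f k u).card := Finset.card_image_le
        omega
      have hTmem : ∀ u, Old f k u → g u ∈ T := by
        intro u hu
        rw [hTdef, Finset.mem_image]
        exact ⟨u, by simpa using hu, rfl⟩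
      have hnoniso : ∀ u, Old f k u → ∃ z, K.Adj (g u) z := by
        rintro u ⟨j, hj, w, rfl⟩
        obtain ⟨b, hb⟩ := hiso w
        exact ⟨_, hg2 j hj w b hb⟩
      -- the new copy
      have hφ : ∃ φ, Places H K φ ∧ (∀ w, Old f k (f k w) → φ w = g (f k w)) ∧
          ∀ w, ¬ Old f k (f k w) → φ w ∉ T := by
        rcases hatt k (by omega) with h1 | ⟨a, b, hab, ⟨j, hj, a', b', hab', hfa, hfb⟩, hold⟩
        · by_cases hex : ∃ a0, Old f k (f k a0)
          · obtain ⟨a0, ha0⟩ := hex
            obtain ⟨φ, p1, p2, p3⟩ := exists_at_vertex harc hiso hdeg hK (g (f k a0))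
              (hnoniso _ ha0) (T.erase (g (f k a0)))
              ((Finset.card_le_card (Finset.erase_subset _ _)).trans hTcard) (by simp) a0
            refine ⟨φ, p1, ?_, ?_⟩
            · intro w hw
              rw [h1 w a0 hw ha0, p2]
            · intro w hw hmem
              apply p3 w
              rw [Finset.mem_erase]
              refine ⟨?_, hmem⟩
              rw [← p2]
              intro h
              have := p1.1 h
              subst this
              exact hw ha0
          · push Not at hex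
            obtain ⟨φ, p1, p2⟩ := exists_free harc hiso hdeg hK hne T hTcard
            exact ⟨φ, p1, fun w hw => absurd hw (hex w), fun w _ => p2 w⟩
        · have hxy : K.Adj (g (f k a)) (g (f k b)) := by
            rw [← hfa, ← hfb]
            exact hg2 j hj a' b' hab'
          obtain ⟨φ, p1, p2, p3, p4⟩ := exists_at_arc harc hK (g (f k a)) (g (f k b)) hxy
            ((T.erase (g (f k a))).erase (g (f k b)))
            (((Finset.card_le_card (Finset.erase_subset _ _)).trans
              (Finset.card_le_card (Finset.erase_subset _ _))).trans hTcard)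
            (by simp) (by simp) a b hab
          have hoa : Old f k (f k a) := ⟨j, hj, a', hfa⟩
          have hob : Old f k (f k b) := ⟨j, hj, b', hfb⟩
          refine ⟨φ, p1, ?_, ?_⟩
          · intro w hw
            rcases hold w hw with h | h
            · rw [h, p2]
            · rw [h, p3]
          · intro w hw hmem
            apply p4 w
            rw [Finset.mem_erase, Finset.mem_erase]
            refine ⟨?_, ?_, hmem⟩
            · rw [← p3]
              intro h
              have := p1.1 h
              subst this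
              exact hw hob
            · rw [← p2]
              intro h
              have := p1.1 h
              subst this
              exact hw hoa
      obtain ⟨φ, hφ1, hφ2, hφ3⟩ := hφ
      set g' : U → V := fun u => if h : ∃ w, f k w = u then φ h.choose else g u with hg'
      have hg'k : ∀ w, g' (f k w) = φ w := by
        intro w
        have hex : ∃ w', f k w' = f k w := ⟨w, rfl⟩
        have : hex.choose = w := hfk hex.choose_spec
        simp only [hg']
        rw [dif_pos hex, this]
      have hg'old : ∀ u, Old f k u → g' u = g u := by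
        intro u hu
        by_cases hex : ∃ w, f k w = u
        · obtain ⟨w, rfl⟩ := hex
          rw [hg'k, hφ2 w hu]
        · simp only [hg']
          rw [dif_neg hex]
      refine ⟨g', ?_, ?_⟩
      · have hcase : ∀ u, Old f (k + 1) u → Old f k u ∨ (¬ Old f k u ∧ ∃ w, f k w = u) := by
          rintro u ⟨j, hj, w, rfl⟩
          by_cases ho : Old f k (f j w)
          · exact Or.inl ho
          · right
            refine ⟨ho, ?_⟩
            have : j = k := by
              by_contra hne
              exact ho ⟨j, by omega, w, rfl⟩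
            exact ⟨w, by rw [this]⟩
        intro u v hu hv huv
        rcases hcase u hu with h1 | ⟨h1, w1, rfl⟩ <;> rcases hcase v hv with h2 | ⟨h2, w2, rfl⟩
        · rw [hg'old u h1, hg'old v h2] at huv
          exact hg1 u v h1 h2 huv
        · rw [hg'old u h1, hg'k] at huv
          exact absurd (huv ▸ hTmem u h1) (hφ3 w2 h2)
        · rw [hg'old v h2, hg'k] at huv
          exact absurd (huv.symm ▸ hTmem v h2) (hφ3 w1 h1)
        · rw [hg'k, hg'k] at huv
          rw [hφ1.1 huv]
      · intro j hj a b hab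
        rcases Nat.lt_succ_iff_lt_or_eq.1 hj with h | h
        · rw [hg'old _ ⟨j, h, a, rfl⟩, hg'old _ ⟨j, h, b, rfl⟩]
          exact hg2 j h a b hab
        · subst h
          rw [hg'k, hg'k]
          exact hφ1.2 a b hab
  obtain ⟨g, hg1, hg2⟩ := key m le_rfl
  apply places_not_free (φ := g)
  refine ⟨fun u v huv => hg1 u v (hcov u) (hcov v) huv, ?_⟩
  intro u v huv
  obtain ⟨i, hi, a, b, hab, ha, hb⟩ := (hadj u v).1 huv
  rw [← ha, ← hb]
  exact hg2 i hi a b hab

end

/-- A tree of copies of `H` contains `H`. -/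
theorem contained_tree {H : SimpleGraph W} {F : SimpleGraph U} (hF : IsTreeOf H F) : H ⊑ F := by
  obtain ⟨m, f, hm, hinj, _, hadj, _⟩ := hF
  apply places_not_free (φ := f 0)
  exact ⟨hinj 0 hm, fun a b hab => (hadj _ _).2 ⟨0, hm, a, b, hab, rfl, rfl⟩⟩

/-- Upper bound for the Turán numbers of trees of copies of `H`. -/
theorem extremalNumber_tree_le [Finite U] [Nonempty W] {H : SimpleGraph W}
    (hH : H.Preconnected) (harc : ArcTransitive H)
    (hiso : ∀ a, ∃ b, H.Adj a b)
    (hdeg : ∀ a b, H.Adj a b → ∃ b', b' ≠ b ∧ H.Adj a b')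
    {F : SimpleGraph U} (hF : IsTreeOf H F) (n : ℕ) :
    extremalNumber n F ≤ 4 * Nat.card U * extremalNumber n H := by
  classical
  have : Nonempty U := by
    obtain ⟨m, f, hm, _⟩ := hF
    exact ⟨f 0 (Classical.arbitrary W)⟩
  have hpos : 1 ≤ Nat.card U := Nat.card_pos
  have hne : ∃ a b, H.Adj a b := ⟨Classical.arbitrary W, hiso _⟩
  have h := (extremalNumber_le_iff (V := Fin n) F (4 * Nat.card U * extremalNumber n H)).2
  rw [Fintype.card_fin] at h
  apply h
  intro G _ hG
  obtain ⟨K, hK, hcard, hKr⟩ := exists_robust H hH hne (Nat.card U) hpos G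
  rw [Fintype.card_fin] at hcard
  have hK0 : K.edgeSet.ncard = 0 := by
    rw [Set.ncard_eq_zero (Set.toFinite _)]
    by_contra hcon
    obtain ⟨e, he⟩ := Set.nonempty_iff_ne_empty.2 hcon
    induction e using Sym2.ind with
    | _ x y =>
      have hadj : K.Adj x y := he
      have := embed harc hiso hdeg hKr ⟨x, y, hadj⟩ F hF (Nat.le_succ _)
      exact hG (this.trans (IsContained.of_le hK))
  rw [hK0, zero_add] at hcard
  have e1 : G.edgeFinset.card = G.edgeSet.ncard := by
    rw [← Set.ncard_coe_finset]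
    congr 1
    ext e
    simp
  omega

end Pool.Agent.H49.Glue
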