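import Mathlib
import Pool.Agent.H49.Glue.Embed

set_option autoImplicit false

open Finset SimpleGraph

namespace Pool.Agent.H49.Glue

variable {V W U : Type}

/-- The complete bipartite graph `K_{r,r}`. -/
abbrev Krr (r : ℕ) : SimpleGraph (Fin r ⊕ Fin r) := completeBipartiteGraph (Fin r) (Fin r)

theorem krr_preconnected (r : ℕ) (hr : 1 ≤ r) : (Krr r).Preconnected := by
  have h0 : ∀ i j : Fin r, (Krr r).Adj (Sum.inl i) (Sum.inr j) := by
    intro i j
    simp [completeBipartiteGraph_adj]
  have hz : Fin r := ⟨0, by omega⟩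
  rintro (i | i) (j | j)
  · exact (h0 i hz).reachable.trans (h0 j hz).symm.reachable
  · exact (h0 i j).reachable
  · exact (h0 j i).symm.reachable
  · exact (h0 hz i).symm.reachable.trans (h0 hz j).reachable

theorem krr_iso (r : ℕ) (hr : 1 ≤ r) (a : Fin r ⊕ Fin r) : ∃ b, (Krr r).Adj a b := by
  have hz : Fin r := ⟨0, by omega⟩
  rcases a with i | i
  · exact ⟨Sum.inr hz, by simp [completeBipartiteGraph_adj]⟩
  · exact ⟨Sum.inl hz, by simp [completeBipartiteGraph_adj]⟩

theorem krr_deg (r : ℕ) (hr : 2 ≤ r) (a b : Fin r ⊕ Fin r) (hab : (Krr r).Adj a b) :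
    ∃ b', b' ≠ b ∧ (Krr r).Adj a b' := by
  have hnt : Nontrivial (Fin r) := Fin.nontrivial_iff_two_le.2 hr
  rcases a with i | i <;> rcases b with j | j
  · simp [completeBipartiteGraph_adj] at hab
  · obtain ⟨j', hj'⟩ := exists_ne j
    exact ⟨Sum.inr j', by simpa using hj', by simp [completeBipartiteGraph_adj]⟩
  · obtain ⟨j', hj'⟩ := exists_ne j
    exact ⟨Sum.inl j', by simpa using hj', by simp [completeBipartiteGraph_adj]⟩
  · simp [completeBipartiteGraph_adj] at hab

theorem krr_arcTransitive (r : ℕ) : ArcTransitive (Krr r) := by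
  -- it is enough to move arcs that start on the left
  have h1 : ∀ i j k l : Fin r, ∃ σ : Krr r ≃g Krr r,
      σ (Sum.inl i) = Sum.inl k ∧ σ (Sum.inr j) = Sum.inr l := by
    intro i j k l
    refine ⟨⟨Equiv.sumCongr (Equiv.swap i k) (Equiv.swap j l), ?_⟩, ?_, ?_⟩
    · rintro (a | a) (b | b) <;> simp [completeBipartiteGraph_adj]
    · simp
    · simp
  have h2 : ∃ τ : Krr r ≃g Krr r, (∀ i, τ (Sum.inl i) = Sum.inr i) ∧
      ∀ i, τ (Sum.inr i) = Sum.inl i := by
    refine ⟨⟨Equiv.sumComm _ _, ?_⟩, ?_, ?_⟩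
    · rintro (a | a) (b | b) <;> simp [completeBipartiteGraph_adj]
    · intro i; rfl
    · intro i; rfl
  obtain ⟨τ, hτ1, hτ2⟩ := h2
  intro a b c d hab hcd
  rcases a with i | i <;> rcases b with j | j <;> rcases c with k | k <;> rcases d with l | l <;>
    first
    | (exfalso; simp [completeBipartiteGraph_adj] at hab; done)
    | (exfalso; simp [completeBipartiteGraph_adj] at hcd; done)
    | skip
  · exact h1 i j k l
  · obtain ⟨σ, hσ1, hσ2⟩ := h1 i j k l
    refine ⟨σ.trans τ, ?_, ?_⟩
    · change τ (σ (Sum.inl i)) = _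
      rw [hσ1, hτ1]
    · change τ (σ (Sum.inr j)) = _
      rw [hσ2, hτ2]
  · obtain ⟨σ, hσ1, hσ2⟩ := h1 i j k l
    refine ⟨τ.trans σ, ?_, ?_⟩
    · change σ (τ (Sum.inr i)) = _
      rw [hτ2, hσ1]
    · change σ (τ (Sum.inl j)) = _
      rw [hτ1, hσ2]
  · obtain ⟨σ, hσ1, hσ2⟩ := h1 j i l k
    exact ⟨σ, hσ2, hσ1⟩

/-! ### The bound of Kővári, Sós and Turán -/

section KST

variable [Fintype V] [DecidableEq V]

open Classical in
/-- The neighbours of `x`. -/
noncomputable def nb (G : SimpleGraph V) (x : V) : Finset V := univ.filter fun y => G.Adj x y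

omit [DecidableEq V] in
theorem mem_nb {G : SimpleGraph V} {x y : V} : y ∈ nb G x ↔ G.Adj x y := by
  simp [nb]

omit [DecidableEq V] in
open Classical in
theorem sum_nb (G : SimpleGraph V) : ∑ x, (nb G x).card = 2 * G.edgeSet.ncard := by
  rw [ncard_edgeSet, ← sum_degrees_eq_twice_card_edges]
  apply Finset.sum_congr rfl
  intro x _
  rw [← card_neighborFinset_eq_degree]
  congr 1
  ext y
  simp [mem_nb]

open Classical in
/-- Few common neighbours in a graph without `K_{r,r}`. -/
theorem common_lt {r : ℕ} {G : SimpleGraph V} (hG : (Krr r).Free G) (A : Finset V)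
    (hA : A.card = r) : (univ.filter fun x => A ⊆ nb G x).card < r := by
  by_contra hcon
  push Not at hcon
  obtain ⟨B, hB, hBc⟩ := Finset.exists_subset_card_eq hcon
  apply hG
  have eA : Fin r ≃ A := (Fintype.equivFinOfCardEq (by rw [Fintype.card_coe, hA])).symm
  have eB : Fin r ≃ B := (Fintype.equivFinOfCardEq (by rw [Fintype.card_coe, hBc])).symm
  have hadj : ∀ i j, G.Adj (eB i : V) (eA j : V) := by
    intro i j
    have := (Finset.mem_filter.1 (hB (eB i).2)).2
    exact mem_nb.1 (this (eA j).2)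
  apply places_not_free (φ := Sum.elim (fun i => (eB i : V)) (fun j => (eA j : V)))
  constructor
  · rintro (i | i) (j | j) hij
    · simp only [Sum.elim_inl] at hij
      rw [eB.injective (Subtype.ext hij)]
    · simp only [Sum.elim_inl, Sum.elim_inr] at hij
      exact absurd hij (hadj i j).ne
    · simp only [Sum.elim_inl, Sum.elim_inr] at hij
      exact absurd hij.symm (hadj j i).ne
    · simp only [Sum.elim_inr] at hij
      rw [eA.injective (Subtype.ext hij)]
  · rintro (i | i) (j | j) hij
    · simp [completeBipartiteGraph_adj] at hij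
    · exact hadj i j
    · exact (hadj j i).symm
    · simp [completeBipartiteGraph_adj] at hij

/-- Sums of binomial coefficients of degrees. -/
theorem sum_choose_le {r : ℕ} (hr : 1 ≤ r) {G : SimpleGraph V} (hG : (Krr r).Free G)
    (S : Finset V) (hS : ∀ x y, G.Adj x y → y ∈ S) :
    ∑ x ∈ S, (nb G x).card.choose r ≤ (r - 1) * S.card.choose r := by
  classical
  have h1 : ∀ x ∈ S, (nb G x).card.choose r =
      ((S.powersetCard r).filter fun A => A ⊆ nb G x).card := by
    intro x _
    rw [← Finset.card_powersetCard]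
    congr 1
    ext A
    rw [Finset.mem_powersetCard, Finset.mem_filter, Finset.mem_powersetCard]
    constructor
    · rintro ⟨h1, h2⟩
      exact ⟨⟨fun y hy => hS x y (mem_nb.1 (h1 hy)), h2⟩, h1⟩
    · rintro ⟨⟨_, h2⟩, h3⟩
      exact ⟨h3, h2⟩
  rw [Finset.sum_congr rfl h1]
  simp_rw [Finset.card_filter]
  rw [Finset.sum_comm]
  simp_rw [← Finset.card_filter]
  calc ∑ A ∈ S.powersetCard r, (S.filter fun x => A ⊆ nb G x).card
      ≤ ∑ A ∈ S.powersetCard r, (r - 1) := by
        apply Finset.sum_le_sum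
        intro A hA
        rw [Finset.mem_powersetCard] at hA
        have h2 := common_lt hG A hA.2
        have h3 : (S.filter fun x => A ⊆ nb G x).card ≤
            (univ.filter fun x => A ⊆ nb G x).card :=
          Finset.card_le_card (Finset.filter_subset_filter _ (Finset.subset_univ _))
        omega
    _ = (r - 1) * S.card.choose r := by
        rw [Finset.sum_const, Finset.card_powersetCard, smul_eq_mul, mul_comm]

theorem pow_le_choose (r d : ℕ) (hr : 1 ≤ r) : d ^ r ≤ r ^ r * (r.factorial * d.choose r + 1) := by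
  rcases lt_or_ge d r with h | h
  · calc d ^ r ≤ r ^ r := Nat.pow_le_pow_left h.le r
      _ ≤ _ := Nat.le_mul_of_pos_right _ (by positivity)
  · have h1 : (d + 1 - r) ^ r ≤ r.factorial * d.choose r := by
      have := Nat.pow_sub_le_descFactorial d r
      rwa [Nat.descFactorial_eq_factorial_mul_choose] at this
    have h2 : d ≤ r * (d + 1 - r) := by
      obtain ⟨k, rfl⟩ := Nat.exists_eq_add_of_le h
      have : r + k + 1 - r = k + 1 := by omega
      rw [this]
      nlinarith
    calc d ^ r ≤ (r * (d + 1 - r)) ^ r := Nat.pow_le_pow_left h2 r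
      _ = r ^ r * (d + 1 - r) ^ r := mul_pow _ _ _
      _ ≤ r ^ r * (r.factorial * d.choose r + 1) :=
        Nat.mul_le_mul_left _ (h1.trans (Nat.le_succ _))

/-- The number of edges inside a set `S` of a graph without `K_{r,r}`. -/
theorem kst {r : ℕ} (hr : 1 ≤ r) {G : SimpleGraph V} (hG : (Krr r).Free G)
    (S : Finset V) (hS : ∀ x y, G.Adj x y → y ∈ S) :
    (G.edgeSet.ncard : ℝ) ≤ (r : ℝ) ^ 2 * (S.card : ℝ) ^ (2 - 1 / (r : ℝ)) := by
  have hr0 : (0 : ℝ) < r := by exact_mod_cast hr
  have hr1 : (1 : ℝ) ≤ r := by exact_mod_cast hr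
  rcases S.eq_empty_or_nonempty with hSe | hSn
  · subst hSe
    have : G.edgeSet.ncard = 0 := by
      rw [Set.ncard_eq_zero (Set.toFinite _)]
      by_contra hcon
      obtain ⟨e, he⟩ := Set.nonempty_iff_ne_empty.2 hcon
      induction e using Sym2.ind with
      | _ x y => exact absurd (hS x y he) (by simp)
    rw [this]
    simp only [Nat.cast_zero]
    positivity
  have hs : (1 : ℝ) ≤ S.card := by exact_mod_cast hSn.card_pos
  have hs0 : (0 : ℝ) < S.card := by linarith
  -- the degrees outside of `S` vanish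
  have hsum : (∑ x ∈ S, ((nb G x).card : ℝ)) = 2 * (G.edgeSet.ncard : ℝ) := by
    have h1 : ∑ x ∈ S, (nb G x).card = ∑ x, (nb G x).card := by
      apply Finset.sum_subset (Finset.subset_univ _)
      intro x _ hx
      rw [Finset.card_eq_zero, Finset.eq_empty_iff_forall_notMem]
      intro y hy
      exact hx (hS y x (mem_nb.1 hy).symm)
    rw [sum_nb] at h1
    exact_mod_cast h1
  have hpow : (∑ x ∈ S, ((nb G x).card : ℝ)) ^ r ≤
      (S.card : ℝ) ^ (r - 1) * ∑ x ∈ S, ((nb G x).card : ℝ) ^ r := by
    have h := pow_sum_div_card_le_sum_pow (s := S) (f := fun x => ((nb G x).card : ℝ))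
      (fun _ _ => by positivity) (r - 1)
    rw [Nat.sub_add_cancel hr, div_le_iff₀ (by positivity)] at h
    rw [mul_comm]
    exact h
  have hdeg : (∑ x ∈ S, ((nb G x).card : ℝ) ^ r) ≤ (r : ℝ) ^ (r + 1) * (S.card : ℝ) ^ r := by
    have h1 : ∑ x ∈ S, (nb G x).card ^ r ≤ r ^ (r + 1) * S.card ^ r := by
      calc ∑ x ∈ S, (nb G x).card ^ r
          ≤ ∑ x ∈ S, r ^ r * (r.factorial * (nb G x).card.choose r + 1) :=
            Finset.sum_le_sum fun x _ => pow_le_choose r _ hr
        _ = r ^ r * (r.factorial * ∑ x ∈ S, (nb G x).card.choose r + S.card) := by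
            rw [← Finset.mul_sum, Finset.sum_add_distrib, ← Finset.mul_sum,
              Finset.sum_const, smul_eq_mul, mul_one]
        _ ≤ r ^ r * (r.factorial * ((r - 1) * S.card.choose r) + S.card) :=
            Nat.mul_le_mul_left _ (Nat.add_le_add_right
              (Nat.mul_le_mul_left _ (sum_choose_le hr hG S hS)) _)
        _ ≤ r ^ r * ((r - 1) * S.card ^ r + S.card ^ r) := by
            apply Nat.mul_le_mul_left
            apply Nat.add_le_add
            · have h2 : r.factorial * S.card.choose r ≤ S.card ^ r := by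
                rw [← Nat.descFactorial_eq_factorial_mul_choose]
                exact Nat.descFactorial_le_pow _ _
              calc r.factorial * ((r - 1) * S.card.choose r)
                  = (r - 1) * (r.factorial * S.card.choose r) := by ring
                _ ≤ _ := Nat.mul_le_mul_left _ h2
            · exact Nat.le_self_pow (by omega) _
        _ = r ^ (r + 1) * S.card ^ r := by
            obtain ⟨k, rfl⟩ := Nat.exists_eq_add_of_le hr
            have : 1 + k - 1 = k := by omega
            rw [this]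
            ring
    exact_mod_cast h1
  have htot : (2 * (G.edgeSet.ncard : ℝ)) ^ r ≤ (r : ℝ) ^ (r + 1) * (S.card : ℝ) ^ (2 * r - 1) := by
    rw [← hsum]
    refine hpow.trans ?_
    calc (S.card : ℝ) ^ (r - 1) * ∑ x ∈ S, ((nb G x).card : ℝ) ^ r
        ≤ (S.card : ℝ) ^ (r - 1) * ((r : ℝ) ^ (r + 1) * (S.card : ℝ) ^ r) :=
          mul_le_mul_of_nonneg_left hdeg (by positivity)
      _ = (r : ℝ) ^ (r + 1) * ((S.card : ℝ) ^ (r - 1) * (S.card : ℝ) ^ r) := by ring
      _ = _ := by
          rw [← pow_add]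
          congr 2
          omega
  have hbound : (2 * (G.edgeSet.ncard : ℝ)) ^ r ≤
      ((r : ℝ) ^ 2 * (S.card : ℝ) ^ (2 - 1 / (r : ℝ))) ^ r := by
    refine htot.trans ?_
    rw [mul_pow, ← pow_mul]
    have e1 : ((S.card : ℝ) ^ (2 - 1 / (r : ℝ))) ^ r = (S.card : ℝ) ^ (2 * r - 1) := by
      rw [← Real.rpow_natCast, ← Real.rpow_mul hs0.le, ← Real.rpow_natCast]
      congr 1
      rw [Nat.cast_sub (by omega)]
      push_cast
      field_simp
    rw [e1]
    apply mul_le_mul_of_nonneg_right _ (by positivity)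
    exact pow_le_pow_right₀ hr1 (by omega)
  have h2 := (pow_le_pow_iff_left₀ (by positivity) (by positivity) (by omega)).1 hbound
  have h3 : (0 : ℝ) ≤ G.edgeSet.ncard := by positivity
  linarith

end KST

end Pool.Agent.H49.Glue
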