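import Mathlib
import Pool.Agent.H49.Glue.Embed

set_option autoImplicit false

open Finset SimpleGraph

namespace Pool.Agent.H49.Glue

variable {V W U : Type}

/-- Every vertex is an end of, or adjacent to an end of, every edge (complete multipartite graphs
have this property). -/
def EdgesDominate (H : SimpleGraph W) : Prop :=
  ∀ a b w, H.Adj a b → w = a ∨ w = b ∨ H.Adj a w ∨ H.Adj b w

/-- `G` is the union of `q` graphs without `H`. -/
def UnionFree (H : SimpleGraph W) (q : ℕ) (G : SimpleGraph V) : Prop :=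
  ∃ D : Fin q → SimpleGraph V, (∀ i, H.Free (D i)) ∧ G = ⨆ i, D i

/-- The robust part of a graph, and a colouring of the other edges without monochromatic copies
of `H`. -/
theorem split_colouring (H : SimpleGraph W) (hdom : EdgesDominate H) (τ : ℕ) [Finite V] (m : ℕ) :
    ∀ G : SimpleGraph V, G.edgeSet.ncard ≤ m →
      ∃ K ≤ G, (∀ x y, K.Adj x y → Robust H τ K x y) ∧
        ∃ c : Sym2 V → Fin (2 * τ + 1), ∀ φ, Places H (G \ K) φ → (∃ a b, H.Adj a b) →
          ∃ a b a' b', H.Adj a b ∧ H.Adj a' b' ∧ c s(φ a, φ b) ≠ c s(φ a', φ b') := by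
  classical
  induction m with
  | zero =>
    intro G hG
    have h0 : G.edgeSet.ncard = 0 := by omega
    rw [Set.ncard_eq_zero (Set.toFinite _)] at h0
    have hno : ∀ x y, ¬ G.Adj x y := by
      intro x y hxy
      have : s(x, y) ∈ G.edgeSet := hxy
      rw [h0] at this
      exact this
    refine ⟨G, le_rfl, fun x y hxy => absurd hxy (hno x y), fun _ => 0, ?_⟩
    rintro φ hφ ⟨a, b, hab⟩
    exact absurd (hφ.2 a b hab).1 (hno _ _)
  | succ m ih =>
    intro G hG
    by_cases hall : ∀ x y, G.Adj x y → Robust H τ G x y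
    · refine ⟨G, le_rfl, hall, fun _ => 0, ?_⟩
      rintro φ hφ ⟨a, b, hab⟩
      have := hφ.2 a b hab
      rw [sdiff_adj] at this
      exact absurd this.1 this.2
    · push Not at hall
      obtain ⟨x, y, hxy, hnr⟩ := hall
      unfold Robust at hnr
      push Not at hnr
      obtain ⟨T0, hT0, hxT, hyT, hT0'⟩ := hnr
      set G1 : SimpleGraph V := G.deleteEdges {s(x, y)} with hG1
      have hlt : G1.edgeSet.ncard < G.edgeSet.ncard := by
        apply Set.ncard_lt_ncard _ (Set.toFinite _)
        rw [hG1, edgeSet_deleteEdges]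
        refine ⟨Set.sdiff_subset, fun hsub => ?_⟩
        have h1 : s(x, y) ∈ G.edgeSet := hxy
        exact (hsub h1).2 rfl
      obtain ⟨K, hK, hKr, c1, hc1⟩ := ih G1 (by omega)
      have hG1G : G1 ≤ G := deleteEdges_le _
      -- a colour for the edge `x y`
      obtain ⟨γ, hγ⟩ : ∃ γ : Fin (2 * τ + 1), γ ∉
          (T0.image fun t => c1 s(x, t)) ∪ (T0.image fun t => c1 s(y, t)) := by
        by_contra hcon
        push Not at hcon
        have h1 : (univ : Finset (Fin (2 * τ + 1))) ⊆
            (T0.image fun t => c1 s(x, t)) ∪ (T0.image fun t => c1 s(y, t)) :=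
          fun γ _ => hcon γ
        have h2 := (Finset.card_le_card h1).trans (Finset.card_union_le _ _)
        rw [Finset.card_univ, Fintype.card_fin] at h2
        have h3 : (T0.image fun t => c1 s(x, t)).card ≤ T0.card := Finset.card_image_le
        have h4 : (T0.image fun t => c1 s(y, t)).card ≤ T0.card := Finset.card_image_le
        omega
      rw [Finset.mem_union, Finset.mem_image, Finset.mem_image] at hγ
      push Not at hγ
      refine ⟨K, hK.trans hG1G, hKr, Function.update c1 s(x, y) γ, ?_⟩
      rintro φ hφ hne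
      by_cases hthrough : ∃ a b, H.Adj a b ∧ φ a = x ∧ φ b = y
      · have hφG : Places H G φ := hφ.mono sdiff_le
        obtain ⟨w, hw⟩ := hT0' φ hφG hthrough
        obtain ⟨a, b, hab, ha, hb⟩ := hthrough
        have hwx : φ w ≠ x := fun h => hxT (h ▸ hw)
        have hwy : φ w ≠ y := fun h => hyT (h ▸ hw)
        rcases hdom a b w hab with h | h | h | h
        · exact absurd (by rw [h, ha]) hwx
        · exact absurd (by rw [h, hb]) hwy
        · refine ⟨a, b, a, w, hab, h, ?_⟩
          have hne' : s(x, φ w) ≠ s(x, y) := by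
            intro heq
            rcases Sym2.eq_iff.1 heq with ⟨_, h2⟩ | ⟨h1, h2⟩
            · exact hwy h2
            · exact hwx h2
          have e1 : Function.update c1 s(x, y) γ s(φ a, φ w) = c1 s(x, φ w) := by
            rw [ha]
            exact Function.update_of_ne hne' _ _
          have e2 : Function.update c1 s(x, y) γ s(φ a, φ b) = γ := by
            rw [ha, hb]
            exact Function.update_self _ _ _
          rw [e1, e2]
          exact fun heq => hγ.1 _ hw heq.symm
        · refine ⟨a, b, b, w, hab, h, ?_⟩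
          have hne' : s(y, φ w) ≠ s(x, y) := by
            intro heq
            rcases Sym2.eq_iff.1 heq with ⟨_, h2⟩ | ⟨h1, h2⟩
            · exact hwy h2
            · exact hwx h2
          have e1 : Function.update c1 s(x, y) γ s(φ b, φ w) = c1 s(y, φ w) := by
            rw [hb]
            exact Function.update_of_ne hne' _ _
          have e2 : Function.update c1 s(x, y) γ s(φ a, φ b) = γ := by
            rw [ha, hb]
            exact Function.update_self _ _ _
          rw [e1, e2]
          exact fun heq => hγ.2 _ hw heq.symm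
      · push Not at hthrough
        have hne2 : ∀ a b, H.Adj a b → s(φ a, φ b) ≠ s(x, y) := by
          intro a b hab heq
          rcases Sym2.eq_iff.1 heq with ⟨h1, h2⟩ | ⟨h1, h2⟩
          · exact hthrough a b hab h1 h2
          · exact hthrough b a hab.symm h2 h1
        have hφ1 : Places H (G1 \ K) φ := by
          refine ⟨hφ.1, fun a b hab => ?_⟩
          have h := hφ.2 a b hab
          rw [sdiff_adj] at h ⊢
          refine ⟨?_, h.2⟩
          rw [hG1, deleteEdges_adj]
          exact ⟨h.1, hne2 a b hab⟩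
        obtain ⟨a, b, a', b', hab, hab', hcol⟩ := hc1 φ hφ1 hne
        refine ⟨a, b, a', b', hab, hab', ?_⟩
        rw [Function.update_of_ne (hne2 a b hab), Function.update_of_ne (hne2 a' b' hab')]
        exact hcol

/-- **Structure of all graphs.** Every finite graph is the union of a graph with `τ`-robust edges
only and of `2 τ + 1` graphs without `H`. -/
theorem split (H : SimpleGraph W) (hdom : EdgesDominate H) (hne : ∃ a b, H.Adj a b) (τ : ℕ)
    [Finite V] (G : SimpleGraph V) :
    ∃ K ≤ G, (∀ x y, K.Adj x y → Robust H τ K x y) ∧ UnionFree H (2 * τ + 1) (G \ K) := by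
  obtain ⟨K, hK, hKr, c, hc⟩ := split_colouring H hdom τ _ G le_rfl
  refine ⟨K, hK, hKr, fun i =>
    { Adj := fun x y => (G \ K).Adj x y ∧ c s(x, y) = i
      symm := ⟨fun x y h => ⟨h.1.symm, by rw [Sym2.eq_swap]; exact h.2⟩⟩
      loopless := ⟨fun x h => (G \ K).loopless.irrefl x h.1⟩ }, ?_, ?_⟩
  · intro i hcon
    obtain ⟨φ, hφ⟩ := places_of_contained hcon
    obtain ⟨a, b, a', b', hab, hab', hcol⟩ := hc φ ⟨hφ.1, fun a b hab => (hφ.2 a b hab).1⟩ hne
    exact hcol ((hφ.2 a b hab).2.trans (hφ.2 a' b' hab').2.symm)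
  · ext x y
    rw [iSup_adj]
    constructor
    · intro h
      exact ⟨c s(x, y), h, rfl⟩
    · rintro ⟨i, h⟩
      exact h.1

theorem sdiff_bot' {G K : SimpleGraph V} (h : ¬ ∃ x y, K.Adj x y) : G \ K = G := by
  ext x y
  rw [sdiff_adj]
  exact ⟨fun h1 => h1.1, fun h1 => ⟨h1, fun h2 => h ⟨x, y, h2⟩⟩⟩

/-- Unions of unions. -/
theorem union_trans {H : SimpleGraph W} {P : SimpleGraph V → Prop} {p q : ℕ} {G : SimpleGraph V}
    (h : ∃ D : Fin q → SimpleGraph V, (∀ i, P (D i)) ∧ G = ⨆ i, D i)
    (h' : ∀ D : SimpleGraph V, P D → UnionFree H p D) : UnionFree H (p * q) G := by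
  obtain ⟨D, hD, rfl⟩ := h
  choose E hE1 hE2 using fun i => h' (D i) (hD i)
  refine ⟨fun j => E (finProdFinEquiv.symm j).2 (finProdFinEquiv.symm j).1,
    fun j => hE1 _ _, ?_⟩
  ext x y
  rw [iSup_adj, iSup_adj]
  constructor
  · rintro ⟨i, h⟩
    rw [hE2 i, iSup_adj] at h
    obtain ⟨j, hj⟩ := h
    exact ⟨finProdFinEquiv (j, i), by simpa using hj⟩
  · rintro ⟨j, hj⟩
    refine ⟨(finProdFinEquiv.symm j).2, ?_⟩
    rw [hE2, iSup_adj]
    exact ⟨_, hj⟩

theorem UnionFree.trans {H : SimpleGraph W} {F : SimpleGraph U} {p q : ℕ} {G : SimpleGraph V}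
    (h : UnionFree F q G) (h' : ∀ D : SimpleGraph V, F.Free D → UnionFree H p D) :
    UnionFree H (p * q) G :=
  union_trans (P := fun D => F.Free D) h h'

/-- The number of edges of a union of graphs without `H`. -/
theorem UnionFree.ncard_le [Fintype V] {H : SimpleGraph W} {q : ℕ} {G : SimpleGraph V}
    (h : UnionFree H q G) : G.edgeSet.ncard ≤ q * extremalNumber (Fintype.card V) H := by
  obtain ⟨D, hD, rfl⟩ := h
  have hU : (⨆ i, D i).edgeSet = ⋃ i, (D i).edgeSet := by
    ext e
    induction e using Sym2.ind with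
    | _ x y =>
      rw [Set.mem_iUnion, mem_edgeSet, iSup_adj]
      rfl
  rw [hU]
  calc (⋃ i, (D i).edgeSet).ncard ≤ ∑ i, (D i).edgeSet.ncard :=
        Set.ncard_iUnion_le_of_fintype _
    _ ≤ ∑ _i : Fin q, extremalNumber (Fintype.card V) H :=
        Finset.sum_le_sum fun i _ => ncard_le_extremalNumber (hD i)
    _ = _ := by
        rw [Finset.sum_const, smul_eq_mul, Finset.card_univ, Fintype.card_fin]

end Pool.Agent.H49.Glue
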