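import Mathlib
import Pool.Agent.H49.Glue.Embed
import Pool.Agent.H49.Glue.Split

set_option autoImplicit false

open Finset SimpleGraph

namespace Pool.Agent.H49.Glue

variable {V W U S : Type}

/-- The vertex `u` belongs to the copy `e` of the skeleton or to one of the first `i` copies
`f 0, …, f (i - 1)`. -/
def Used (e : S → U) (f : ℕ → W → U) (i : ℕ) (u : U) : Prop :=
  (∃ s, e s = u) ∨ ∃ j < i, ∃ w, f j w = u

/-- `F` is obtained from `J` by gluing `m` copies of `H` one after the other: `F` is the union of
the copy `e` of `J` and the copies `f 0, …, f (m - 1)` of `H`, and each of the latter shares with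
the union of the graphs before it at most one vertex, or exactly the two ends of an edge of
both. -/
def IsGluing (J : SimpleGraph S) (H : SimpleGraph W) (m : ℕ) (F : SimpleGraph U) : Prop :=
  ∃ (e : S → U) (f : ℕ → W → U), Function.Injective e ∧ (∀ i < m, Function.Injective (f i)) ∧
    (∀ u, Used e f m u) ∧
    (∀ u v, F.Adj u v ↔ (∃ a b, J.Adj a b ∧ e a = u ∧ e b = v) ∨
      ∃ i < m, ∃ a b, H.Adj a b ∧ f i a = u ∧ f i b = v) ∧
    ∀ i < m,
      (∀ a b, Used e f i (f i a) → Used e f i (f i b) → a = b) ∨
      ∃ a b, H.Adj a b ∧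
        ((∃ a' b', J.Adj a' b' ∧ e a' = f i a ∧ e b' = f i b) ∨
          ∃ j < i, ∃ a' b', H.Adj a' b' ∧ f j a' = f i a ∧ f j b' = f i b) ∧
        ∀ w, Used e f i (f i w) → w = a ∨ w = b

section

variable {J : SimpleGraph S} {H : SimpleGraph W} {K : SimpleGraph V} {τ : ℕ}

/-- Copies of an arc-transitive graph glued to `J` embed greedily in a graph with robust edges
that contains `J`. -/
theorem embedJ [Finite U] [Nonempty W] (harc : ArcTransitive H)
    (hiso : ∀ a, ∃ b, H.Adj a b)
    (hdeg : ∀ a b, H.Adj a b → ∃ b', b' ≠ b ∧ H.Adj a b')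
    (hJ : ∀ s, ∃ t, J.Adj s t)
    (hK : ∀ x y, K.Adj x y → Robust H τ K x y) (hne : ∃ x y, K.Adj x y) (hJK : J ⊑ K)
    (F : SimpleGraph U) {m : ℕ} (hF : IsGluing J H m F) (hτ : Nat.card U ≤ τ + 1) : F ⊑ K := by
  classical
  have := Fintype.ofFinite U
  rw [Nat.card_eq_fintype_card] at hτ
  obtain ⟨e, f, he, hinj, hcov, hadj, hatt⟩ := hF
  obtain ⟨ψ, hψ⟩ := places_of_contained hJK
  have key : ∀ k ≤ m, ∃ g : U → V, (∀ u v, Used e f k u → Used e f k v → g u = g v → u = v) ∧
      (∀ a b, J.Adj a b → K.Adj (g (e a)) (g (e b))) ∧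
      ∀ j < k, ∀ a b, H.Adj a b → K.Adj (g (f j a)) (g (f j b)) := by
    intro k
    induction k with
    | zero =>
      intro _
      obtain ⟨x, y, _⟩ := hne
      have hg : ∀ s, (fun u => if h : ∃ s, e s = u then ψ h.choose else x) (e s) = ψ s := by
        intro s
        have hex : ∃ s', e s' = e s := ⟨s, rfl⟩
        have : hex.choose = s := he hex.choose_spec
        simp only
        rw [dif_pos hex, this]
      refine ⟨fun u => if h : ∃ s, e s = u then ψ h.choose else x, ?_, ?_, ?_⟩
      · rintro u v (⟨s, rfl⟩ | ⟨j, hj, _⟩) (⟨t, rfl⟩ | ⟨j', hj', _⟩) huv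
        · rw [hg s, hg t] at huv
          rw [hψ.1 huv]
        · omega
        · omega
        · omega
      · intro a b hab
        rw [hg a, hg b]
        exact hψ.2 a b hab
      · intro j hj
        omega
    | succ k ih =>
      intro hk
      obtain ⟨g, hg1, hgJ, hg2⟩ := ih (by omega)
      have hfk : Function.Injective (f k) := hinj k (by omega)
      set T : Finset V := (univ.filter fun u => Used e f k u).image g with hTdef
      have hnew : ∃ w, ¬ Used e f k (f k w) := by
        by_contra hcon
        push Not at hcon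
        obtain ⟨b0, hb0⟩ := hiso (Classical.arbitrary W)
        rcases hatt k (by omega) with h1 | ⟨a, b, hab, _, hold⟩
        · exact hb0.ne (h1 _ _ (hcon _) (hcon _))
        · obtain ⟨b', hb', hab'⟩ := hdeg a b hab
          rcases hold b' (hcon b') with h | h
          · exact hab'.ne h.symm
          · exact hb' h
      have hTcard : T.card ≤ τ := by
        obtain ⟨w, hw⟩ := hnew
        have h1 : (univ.filter fun u => Used e f k u).card < (univ : Finset U).card := by
          apply Finset.card_lt_card
          rw [Finset.filter_ssubset]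
          exact ⟨f k w, Finset.mem_univ _, hw⟩
        rw [Finset.card_univ] at h1
        have h2 : T.card ≤ (univ.filter fun u => Used e f k u).card := Finset.card_image_le
        omega
      have hTmem : ∀ u, Used e f k u → g u ∈ T := by
        intro u hu
        rw [hTdef, Finset.mem_image]
        exact ⟨u, by simpa using hu, rfl⟩
      have hnoniso : ∀ u, Used e f k u → ∃ z, K.Adj (g u) z := by
        rintro u (⟨s, rfl⟩ | ⟨j, hj, w, rfl⟩)
        · obtain ⟨t, ht⟩ := hJ s
          exact ⟨_, hgJ s t ht⟩
        · obtain ⟨b, hb⟩ := hiso w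
          exact ⟨_, hg2 j hj w b hb⟩
      -- the new copy
      have hφ : ∃ φ, Places H K φ ∧ (∀ w, Used e f k (f k w) → φ w = g (f k w)) ∧
          ∀ w, ¬ Used e f k (f k w) → φ w ∉ T := by
        rcases hatt k (by omega) with h1 | ⟨a, b, hab, hedge, hold⟩
        · by_cases hex : ∃ a0, Used e f k (f k a0)
          · obtain ⟨a0, ha0⟩ := hex
            obtain ⟨φ, p1, p2, p3⟩ := exists_at_vertex harc hiso hdeg hK (g (f k a0))
              (hnoniso _ ha0) (T.erase (g (f k a0)))
              ((Finset.card_le_card (Finset.erase_subset _ _)).trans hTcard) (by simp) a0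
            refine ⟨φ, p1, ?_, ?_⟩
            · intro w hw
              rw [h1 w a0 hw ha0, p2]
            · intro w hw hmem
              apply p3 w
              rw [Finset.mem_erase]
              refine ⟨?_, hmem⟩
              rw [← p2]
              intro h
              have := p1.1 h
              subst this
              exact hw ha0
          · push Not at hex
            obtain ⟨φ, p1, p2⟩ := exists_free harc hiso hdeg hK hne T hTcard
            exact ⟨φ, p1, fun w hw => absurd hw (hex w), fun w _ => p2 w⟩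
        · have hxy : K.Adj (g (f k a)) (g (f k b)) ∧ Used e f k (f k a) ∧
              Used e f k (f k b) := by
            rcases hedge with ⟨a', b', hab', hfa, hfb⟩ | ⟨j, hj, a', b', hab', hfa, hfb⟩
            · refine ⟨?_, Or.inl ⟨a', hfa⟩, Or.inl ⟨b', hfb⟩⟩
              rw [← hfa, ← hfb]
              exact hgJ a' b' hab'
            · refine ⟨?_, Or.inr ⟨j, hj, a', hfa⟩, Or.inr ⟨j, hj, b', hfb⟩⟩
              rw [← hfa, ← hfb]
              exact hg2 j hj a' b' hab'
          obtain ⟨hxy, hoa, hob⟩ := hxy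
          obtain ⟨φ, p1, p2, p3, p4⟩ := exists_at_arc harc hK (g (f k a)) (g (f k b)) hxy
            ((T.erase (g (f k a))).erase (g (f k b)))
            (((Finset.card_le_card (Finset.erase_subset _ _)).trans
              (Finset.card_le_card (Finset.erase_subset _ _))).trans hTcard)
            (by simp) (by simp) a b hab
          refine ⟨φ, p1, ?_, ?_⟩
          · intro w hw
            rcases hold w hw with h | h
            · rw [h, p2]
            · rw [h, p3]
          · intro w hw hmem
            apply p4 w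
            rw [Finset.mem_erase, Finset.mem_erase]
            refine ⟨?_, ?_, hmem⟩
            · rw [← p3]
              intro h
              have := p1.1 h
              subst this
              exact hw hob
            · rw [← p2]
              intro h
              have := p1.1 h
              subst this
              exact hw hoa
      obtain ⟨φ, hφ1, hφ2, hφ3⟩ := hφ
      set g' : U → V := fun u => if h : ∃ w, f k w = u then φ h.choose else g u with hg'
      have hg'k : ∀ w, g' (f k w) = φ w := by
        intro w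
        have hex : ∃ w', f k w' = f k w := ⟨w, rfl⟩
        have : hex.choose = w := hfk hex.choose_spec
        simp only [hg']
        rw [dif_pos hex, this]
      have hg'old : ∀ u, Used e f k u → g' u = g u := by
        intro u hu
        by_cases hex : ∃ w, f k w = u
        · obtain ⟨w, rfl⟩ := hex
          rw [hg'k, hφ2 w hu]
        · simp only [hg']
          rw [dif_neg hex]
      refine ⟨g', ?_, ?_, ?_⟩
      · have hcase : ∀ u, Used e f (k + 1) u → Used e f k u ∨ (¬ Used e f k u ∧ ∃ w, f k w = u) := by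
          rintro u (⟨s, rfl⟩ | ⟨j, hj, w, rfl⟩)
          · exact Or.inl (Or.inl ⟨s, rfl⟩)
          · by_cases ho : Used e f k (f j w)
            · exact Or.inl ho
            · right
              refine ⟨ho, ?_⟩
              have : j = k := by
                by_contra hne
                exact ho (Or.inr ⟨j, by omega, w, rfl⟩)
              exact ⟨w, by rw [this]⟩
        intro u v hu hv huv
        rcases hcase u hu with h1 | ⟨h1, w1, rfl⟩ <;> rcases hcase v hv with h2 | ⟨h2, w2, rfl⟩
        · rw [hg'old u h1, hg'old v h2] at huv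
          exact hg1 u v h1 h2 huv
        · rw [hg'old u h1, hg'k] at huv
          exact absurd (huv ▸ hTmem u h1) (hφ3 w2 h2)
        · rw [hg'old v h2, hg'k] at huv
          exact absurd (huv.symm ▸ hTmem v h2) (hφ3 w1 h1)
        · rw [hg'k, hg'k] at huv
          rw [hφ1.1 huv]
      · intro a b hab
        rw [hg'old _ (Or.inl ⟨a, rfl⟩), hg'old _ (Or.inl ⟨b, rfl⟩)]
        exact hgJ a b hab
      · intro j hj a b hab
        rcases Nat.lt_succ_iff_lt_or_eq.1 hj with h | h
        · rw [hg'old _ (Or.inr ⟨j, h, a, rfl⟩), hg'old _ (Or.inr ⟨j, h, b, rfl⟩)]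
          exact hg2 j h a b hab
        · subst h
          rw [hg'k, hg'k]
          exact hφ1.2 a b hab
  obtain ⟨g, hg1, hgJ, hg2⟩ := key m le_rfl
  apply places_not_free (φ := g)
  refine ⟨fun u v huv => hg1 u v (hcov u) (hcov v) huv, ?_⟩
  intro u v huv
  rcases (hadj u v).1 huv with ⟨a, b, hab, ha, hb⟩ | ⟨i, hi, a, b, hab, ha, hb⟩
  · rw [← ha, ← hb]
    exact hgJ a b hab
  · rw [← ha, ← hb]
    exact hg2 i hi a b hab

end

theorem contained_skeleton {J : SimpleGraph S} {H : SimpleGraph W} {m : ℕ} {F : SimpleGraph U}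
    (hF : IsGluing J H m F) : J ⊑ F := by
  obtain ⟨e, f, he, _, _, hadj, _⟩ := hF
  apply places_not_free (φ := e)
  exact ⟨he, fun a b hab => (hadj _ _).2 (Or.inl ⟨a, b, hab, rfl, rfl⟩)⟩

theorem contained_copy {J : SimpleGraph S} {H : SimpleGraph W} {m : ℕ} {F : SimpleGraph U}
    (hF : IsGluing J H m F) (hm : 1 ≤ m) : H ⊑ F := by
  obtain ⟨e, f, _, hinj, _, hadj, _⟩ := hF
  apply places_not_free (φ := f 0)
  exact ⟨hinj 0 (by omega),
    fun a b hab => (hadj _ _).2 (Or.inr ⟨0, by omega, a, b, hab, rfl, rfl⟩)⟩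

theorem edge_of_contained {J : SimpleGraph S} {K : SimpleGraph V} [hS : Nonempty S]
    (hJ : ∀ s, ∃ t, J.Adj s t) (h : J ⊑ K) : ∃ x y, K.Adj x y := by
  obtain ⟨ψ, hψ⟩ := places_of_contained h
  obtain ⟨t, ht⟩ := hJ (Classical.arbitrary S)
  exact ⟨_, _, hψ.2 _ _ ht⟩

/-- Decomposition of the graphs without `F`. -/
theorem gluing_split [Finite U] [Finite V] [Nonempty W] [Nonempty S] {J : SimpleGraph S}
    {H : SimpleGraph W} (hdom : EdgesDominate H) (harc : ArcTransitive H)
    (hiso : ∀ a, ∃ b, H.Adj a b)
    (hdeg : ∀ a b, H.Adj a b → ∃ b', b' ≠ b ∧ H.Adj a b')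
    (hJ : ∀ s, ∃ t, J.Adj s t) {F : SimpleGraph U} {m : ℕ} (hF : IsGluing J H m F)
    (G : SimpleGraph V) (hG : F.Free G) :
    ∃ K ≤ G, J.Free K ∧ UnionFree H (2 * Nat.card U - 1) (G \ K) := by
  have hU : Nonempty U := by
    obtain ⟨e, _⟩ := hF
    exact ⟨e (Classical.arbitrary S)⟩
  have hpos : 0 < Nat.card U := Nat.card_pos
  have hne : ∃ a b, H.Adj a b := ⟨Classical.arbitrary W, hiso _⟩
  obtain ⟨K, hK, hKr, hu⟩ := split H hdom hne (Nat.card U - 1) G
  refine ⟨K, hK, fun hcon => ?_, ?_⟩
  · exact hG ((embedJ harc hiso hdeg hJ hKr (edge_of_contained hJ hcon) hcon F hF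
      (by omega)).trans (IsContained.of_le hK))
  · have e : 2 * (Nat.card U - 1) + 1 = 2 * Nat.card U - 1 := by omega
    rwa [e] at hu

theorem ex_le_of_forall {F : SimpleGraph U} (n B : ℕ)
    (h : ∀ G : SimpleGraph (Fin n), F.Free G → G.edgeSet.ncard ≤ B) :
    extremalNumber n F ≤ B := by
  classical
  have h' := (extremalNumber_le_iff (V := Fin n) F B).2
  rw [Fintype.card_fin] at h'
  apply h'
  intro G _ hG
  have e1 : G.edgeFinset.card = G.edgeSet.ncard := by
    rw [← Set.ncard_coe_finset]
    congr 1
    ext e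
    simp
  rw [e1]
  exact h G hG

/-- Turán numbers of gluings, first form. -/
theorem ex_gluing_dom [Finite U] [Nonempty W] [Nonempty S] {J : SimpleGraph S}
    {H : SimpleGraph W} (hdom : EdgesDominate H) (harc : ArcTransitive H)
    (hiso : ∀ a, ∃ b, H.Adj a b)
    (hdeg : ∀ a b, H.Adj a b → ∃ b', b' ≠ b ∧ H.Adj a b')
    (hJ : ∀ s, ∃ t, J.Adj s t) {F : SimpleGraph U} {m : ℕ} (hF : IsGluing J H m F) (n : ℕ) :
    extremalNumber n F ≤
      extremalNumber n J + (2 * Nat.card U - 1) * extremalNumber n H := by
  apply ex_le_of_forall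
  intro G hG
  obtain ⟨K, hK, hKJ, hu⟩ := gluing_split hdom harc hiso hdeg hJ hF G hG
  have h1 := ncard_sdiff_add hK
  have h2 := hu.ncard_le
  have h3 := ncard_le_extremalNumber hKJ
  rw [Fintype.card_fin] at h2 h3
  omega

/-- Turán numbers of gluings, second form. -/
theorem ex_gluing [Finite U] [Nonempty W] [Nonempty S] {J : SimpleGraph S}
    {H : SimpleGraph W} (hH : H.Preconnected) (harc : ArcTransitive H)
    (hiso : ∀ a, ∃ b, H.Adj a b)
    (hdeg : ∀ a b, H.Adj a b → ∃ b', b' ≠ b ∧ H.Adj a b')
    (hJ : ∀ s, ∃ t, J.Adj s t) {F : SimpleGraph U} {m : ℕ} (hF : IsGluing J H m F) (n : ℕ) :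
    extremalNumber n F ≤ extremalNumber n J + 4 * Nat.card U * extremalNumber n H := by
  apply ex_le_of_forall
  intro G hG
  have hU : Nonempty U := by
    obtain ⟨e, _⟩ := hF
    exact ⟨e (Classical.arbitrary S)⟩
  have hpos : 1 ≤ Nat.card U := Nat.card_pos
  have hne : ∃ a b, H.Adj a b := ⟨Classical.arbitrary W, hiso _⟩
  obtain ⟨K, hK, hcard, hKr⟩ := exists_robust H hH hne (Nat.card U) hpos G
  rw [Fintype.card_fin] at hcard
  have hKJ : J.Free K := fun hcon =>
    hG ((embedJ harc hiso hdeg hJ hKr (edge_of_contained hJ hcon) hcon F hF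
      (by omega)).trans (IsContained.of_le hK))
  have h3 := ncard_le_extremalNumber hKJ
  rw [Fintype.card_fin] at h3
  omega

end Pool.Agent.H49.Glue
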