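import Mathlib
import Pool.Agent.H49.Glue.Skel
import Pool.Agent.H49.Glue.KST

/-!
# Bipartite graphs with bounded degrees on one side

The theorem of Füredi (1991) and Alon, Krivelevich and Sudakov (2003), by dependent random choice.
-/

set_option autoImplicit false

open Finset SimpleGraph

namespace Pool.Agent.H49.Glue

variable {V S : Type}

/-- `J` is bipartite with a class `X`, and the vertices outside `X` have degrees at most `t`. -/
def OneSided (J : SimpleGraph S) (t : ℕ) : Prop :=
  ∃ X : Set S, (∀ a b, J.Adj a b → (a ∈ X ↔ b ∉ X)) ∧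
    ∀ b, b ∉ X → (J.neighborSet b).ncard ≤ t

open Classical in
/-- The common neighbours of a family. -/
noncomputable def com [Fintype V] (G : SimpleGraph V) {t : ℕ} (R : Fin t → V) : Finset V :=
  univ.filter fun y => ∀ i, G.Adj (R i) y

theorem mem_com [Fintype V] {G : SimpleGraph V} {t : ℕ} {R : Fin t → V} {y : V} :
    y ∈ com G R ↔ ∀ i, G.Adj (R i) y := by
  simp [com]

theorem card_tuples [Fintype V] (A : Finset V) (t : ℕ) (P : (Fin t → V) → Prop)
    [DecidablePred P] (hP : ∀ T, P T ↔ ∀ i, T i ∈ A) :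
    (univ.filter P).card = A.card ^ t := by
  classical
  have : univ.filter P = Fintype.piFinset (fun _ : Fin t => A) := by
    ext T
    simp [hP T]
  rw [this, Fintype.card_piFinset]
  simp

theorem exists_enum [Finite S] {N : Set S} (hN : N.Nonempty) {t : ℕ}
    (hcard : N.ncard ≤ t) : ∃ ρ : Fin t → S, Set.range ρ = N := by
  classical
  obtain ⟨x0, hx0⟩ := hN
  have hF : Fintype N := Fintype.ofFinite N
  have hc : Fintype.card N ≤ Fintype.card (Fin t) := by
    rw [Fintype.card_fin, ← Nat.card_eq_fintype_card]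
    exact hcard
  obtain ⟨e⟩ := Function.Embedding.nonempty_of_card_le hc
  refine ⟨fun i => if h : ∃ x : N, e x = i then (h.choose : S) else x0, ?_⟩
  ext y
  constructor
  · rintro ⟨i, rfl⟩
    by_cases h : ∃ x : N, e x = i
    · simp only [dif_pos h]
      exact h.choose.2
    · simp only [dif_neg h]
      exact hx0
  · intro hy
    refine ⟨e ⟨y, hy⟩, ?_⟩
    have h : ∃ x : N, e x = e ⟨y, hy⟩ := ⟨_, rfl⟩
    simp only [dif_pos h]
    have := e.injective h.choose_spec
    rw [this]

theorem num_ineq (s t : ℕ) (hs : 1 ≤ s) : (s - 1) ^ (t + 1) + s ≤ (2 * s) ^ (t + 1) := by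
  have h1 : (s - 1) ^ (t + 1) ≤ s ^ (t + 1) := Nat.pow_le_pow_left (Nat.sub_le _ _) _
  have h2 : s ≤ s ^ (t + 1) := by
    calc s = s ^ 1 := (pow_one s).symm
      _ ≤ s ^ (t + 1) := Nat.pow_le_pow_right hs (by omega)
  have h3 : 2 ≤ 2 ^ (t + 1) := by
    calc 2 = 2 ^ 1 := by norm_num
      _ ≤ 2 ^ (t + 1) := Nat.pow_le_pow_right (by norm_num) (by omega)
  rw [mul_pow]
  nlinarith [Nat.zero_le (s ^ (t + 1))]

/-- Dependent random choice. -/
theorem aks_choose [Fintype V] [Nonempty V] (G : SimpleGraph V) (s t : ℕ) (hs : 1 ≤ s)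
    (he : (2 * s) ^ (t + 1) * Fintype.card V ^ (2 * t + 1) ≤ (2 * G.edgeSet.ncard) ^ (t + 1)) :
    ∃ A : Finset V, s ≤ A.card ∧
      ∀ R : Fin (t + 1) → V, (∀ i, R i ∈ A) → s ≤ (com G R).card := by
  classical
  set n := Fintype.card V with hn
  have hn0 : 0 < n := Fintype.card_pos
  by_contra hcon
  push Not at hcon
  let bad : (Fin (t + 1) → V) → Finset (Fin (t + 1) → V) := fun T =>
    univ.filter fun R => (com G R).card < s ∧ ∀ i, R i ∈ com G T
  have h1 : ∀ T, (com G T).card + 1 ≤ (bad T).card + s := by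
    intro T
    by_contra hlt
    push Not at hlt
    have hA0 : s ≤ ((com G T) \ (bad T).image (fun R => R 0)).card := by
      have q1 := Finset.le_card_sdiff ((bad T).image (fun R => R 0)) (com G T)
      have q2 := Finset.card_image_le (s := bad T) (f := fun R => R 0)
      omega
    obtain ⟨R, hR, hlt'⟩ := hcon _ hA0
    have hRb : R ∈ bad T := by
      simp only [bad, Finset.mem_filter, Finset.mem_univ, true_and]
      exact ⟨hlt', fun i => (Finset.mem_sdiff.1 (hR i)).1⟩
    exact (Finset.mem_sdiff.1 (hR 0)).2 (Finset.mem_image.2 ⟨R, hRb, rfl⟩)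
  have hM : (univ : Finset (Fin (t + 1) → V)).card = n ^ (t + 1) := by
    rw [Finset.card_univ, Fintype.card_fun, Fintype.card_fin]
  have h2 : ∑ T : Fin (t + 1) → V, (com G T).card = ∑ v, (nb G v).card ^ (t + 1) := by
    have e1 : ∀ T : Fin (t + 1) → V,
        (com G T).card = ∑ v, if (∀ i, G.Adj (T i) v) then 1 else 0 := by
      intro T
      rw [com, Finset.card_filter]
    simp_rw [e1]
    rw [Finset.sum_comm]
    apply Finset.sum_congr rfl
    intro v _
    rw [← Finset.card_filter]
    apply card_tuples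
    intro T
    simp only [mem_nb, G.adj_comm]
  have h3 : ∑ T, (bad T).card ≤ n ^ (t + 1) * (s - 1) ^ (t + 1) := by
    have e1 : ∀ T, (bad T).card =
        ∑ R : Fin (t + 1) → V,
          if ((com G R).card < s ∧ ∀ i, R i ∈ com G T) then 1 else 0 := by
      intro T
      simp only [bad]
      rw [Finset.card_filter]
    simp_rw [e1]
    rw [Finset.sum_comm]
    have e2 : ∀ R ∈ (univ : Finset (Fin (t + 1) → V)),
        (∑ T : Fin (t + 1) → V, if ((com G R).card < s ∧ ∀ i, R i ∈ com G T) then 1 else 0) ≤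
          (s - 1) ^ (t + 1) := by
      intro R _
      rw [← Finset.card_filter]
      by_cases hR : (com G R).card < s
      · have e3 : (univ.filter fun T : Fin (t + 1) → V =>
            ((com G R).card < s ∧ ∀ i, R i ∈ com G T)).card = (com G R).card ^ (t + 1) := by
          apply card_tuples
          intro T
          simp only [hR, true_and, mem_com]
          constructor
          · intro h i j
            exact (h j i).symm
          · intro h i j
            exact (h j i).symm
        rw [e3]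
        exact Nat.pow_le_pow_left (by omega) _
      · have e3 : (univ.filter fun T : Fin (t + 1) → V =>
            ((com G R).card < s ∧ ∀ i, R i ∈ com G T)) = ∅ := by
          rw [Finset.filter_eq_empty_iff]
          intro T _ h
          exact hR h.1
        rw [e3]
        simp
    calc _ ≤ ∑ R : Fin (t + 1) → V, (s - 1) ^ (t + 1) := Finset.sum_le_sum e2
      _ = _ := by rw [Finset.sum_const, hM, smul_eq_mul]
  have h4 : (2 * G.edgeSet.ncard) ^ (t + 1) ≤ n ^ t * ∑ v, (nb G v).card ^ (t + 1) := by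
    rw [← sum_nb]
    exact pow_sum_le_card_mul_sum_pow (fun _ _ => Nat.zero_le _) t
  have h5 : ∑ T : Fin (t + 1) → V, ((com G T).card + 1) ≤
      ∑ T : Fin (t + 1) → V, ((bad T).card + s) := Finset.sum_le_sum fun T _ => h1 T
  rw [Finset.sum_add_distrib, Finset.sum_add_distrib, Finset.sum_const, Finset.sum_const, hM,
    smul_eq_mul, smul_eq_mul, mul_one, h2] at h5
  have hMpos : 0 < n ^ (t + 1) := by positivity
  have h6 := num_ineq s t hs
  generalize (∑ v, (nb G v).card ^ (t + 1)) = P at *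
  generalize (2 * G.edgeSet.ncard) ^ (t + 1) = E at *
  have h7 : P < n ^ (t + 1) * (2 * s) ^ (t + 1) := by
    calc P < P + n ^ (t + 1) := by omega
      _ ≤ n ^ (t + 1) * (s - 1) ^ (t + 1) + n ^ (t + 1) * s := by omega
      _ = n ^ (t + 1) * ((s - 1) ^ (t + 1) + s) := by ring
      _ ≤ n ^ (t + 1) * (2 * s) ^ (t + 1) := Nat.mul_le_mul_left _ h6
  have h8 : n ^ t * P < n ^ t * (n ^ (t + 1) * (2 * s) ^ (t + 1)) :=
    Nat.mul_lt_mul_of_pos_left h7 (by positivity)
  have h9 : n ^ t * (n ^ (t + 1) * (2 * s) ^ (t + 1)) = (2 * s) ^ (t + 1) * n ^ (2 * t + 1) := by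
    ring
  omega

/-- Embedding of a one-sided graph. -/
theorem aks_embed [Fintype V] [Fintype S] {J : SimpleGraph S} (hJ : ∀ s, ∃ u, J.Adj s u) {t : ℕ}
    (h : OneSided J (t + 1)) {G : SimpleGraph V} (A : Finset V)
    (hA : Fintype.card S ≤ A.card)
    (hR : ∀ R : Fin (t + 1) → V, (∀ i, R i ∈ A) → Fintype.card S ≤ (com G R).card) : J ⊑ G := by
  classical
  obtain ⟨X, hX, hdeg⟩ := h
  obtain ⟨α⟩ : Nonempty (S ↪ A) := Function.Embedding.nonempty_of_card_le (by simpa using hA)
  have hρ : ∀ b, ∃ ρ : Fin (t + 1) → S, b ∉ X → Set.range ρ = J.neighborSet b := by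
    intro b
    by_cases hb : b ∈ X
    · exact ⟨fun _ => b, fun h => absurd hb h⟩
    · obtain ⟨u, hu⟩ := hJ b
      obtain ⟨ρ, hρ⟩ := exists_enum (N := J.neighborSet b) ⟨u, hu⟩ (hdeg b hb)
      exact ⟨ρ, fun _ => hρ⟩
  choose ρ hρ using hρ
  set I : Finset V := (univ.filter (· ∈ X)).image (fun a => (α a : V)) with hI
  set c : {b // b ∉ X} → Finset V := fun b => com G (fun i => (α (ρ b i) : V)) \ I with hc
  have hcard : ∀ b, Fintype.card {b // b ∉ X} ≤ (c b).card := by
    intro b
    have q1 := Finset.le_card_sdiff I (com G (fun i => (α (ρ b i) : V)))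
    have q2 := hR (fun i => (α (ρ b i) : V)) (fun i => (α (ρ b i)).2)
    have q3 : I.card ≤ (univ.filter (· ∈ X)).card := Finset.card_image_le
    have q4 : Fintype.card {b // b ∉ X} = Fintype.card S - (univ.filter (· ∈ X)).card := by
      rw [Fintype.card_subtype_compl, Fintype.card_subtype]
    have q5 : (c b).card = (com G (fun i => (α (ρ b i) : V)) \ I).card := rfl
    omega
  have hall : ∀ s : Finset {b // b ∉ X}, s.card ≤ (s.biUnion c).card := by
    intro s
    rcases s.eq_empty_or_nonempty with rfl | ⟨b, hb⟩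
    · simp
    · calc s.card ≤ Fintype.card {b // b ∉ X} := Finset.card_le_univ s
        _ ≤ (c b).card := hcard b
        _ ≤ _ := Finset.card_le_card (Finset.subset_biUnion_of_mem c hb)
  obtain ⟨β, hβ, hβc⟩ := (Finset.all_card_le_biUnion_card_iff_exists_injective c).1 hall
  have hβI : ∀ (b : {b // b ∉ X}) (a : S), a ∈ X → (α a : V) ≠ β b := by
    intro b a ha heq
    have h1 := (Finset.mem_sdiff.1 (hβc b)).2
    apply h1
    rw [← heq, hI, Finset.mem_image]
    exact ⟨a, by simpa using ha, rfl⟩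
  have hβadj : ∀ (b : {b // b ∉ X}) (a : S), J.Adj a b → G.Adj (α a : V) (β b) := by
    intro b a hab
    have h1 := (Finset.mem_sdiff.1 (hβc b)).1
    rw [mem_com] at h1
    have h2 : a ∈ Set.range (ρ b) := by
      rw [hρ b b.2]
      exact hab.symm
    obtain ⟨i, rfl⟩ := h2
    exact h1 i
  apply places_not_free (φ := fun a => if h : a ∈ X then (α a : V) else β ⟨a, h⟩)
  constructor
  · intro a b hab
    by_cases ha : a ∈ X <;> by_cases hb : b ∈ X <;> simp only [ha, hb, dif_pos, dif_neg,
      not_false_eq_true] at hab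
    · exact α.injective (Subtype.ext hab)
    · exact absurd hab (hβI ⟨b, hb⟩ a ha)
    · exact absurd hab.symm (hβI ⟨a, ha⟩ b hb)
    · exact Subtype.ext_iff.1 (hβ hab)
  · intro a b hab
    have hx := hX a b hab
    by_cases ha : a ∈ X
    · have hb := hx.1 ha
      simp only [ha, hb, dif_pos, dif_neg, not_false_eq_true]
      exact hβadj ⟨b, hb⟩ a hab
    · have hb : b ∈ X := by
        by_contra hb
        exact ha (hx.2 hb)
      simp only [ha, hb, dif_pos, dif_neg, not_false_eq_true]
      exact (hβadj ⟨a, ha⟩ b hab.symm).symm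

/-- **Füredi; Alon, Krivelevich, Sudakov.** -/
theorem aks [Finite S] [Nonempty S] {J : SimpleGraph S} (hJ : ∀ s, ∃ u, J.Adj s u) {t : ℕ}
    (ht : 1 ≤ t) (h : OneSided J t) (n : ℕ) :
    (extremalNumber n J : ℝ) ≤ Nat.card S * (n : ℝ) ^ (2 - 1 / (t : ℝ)) := by
  classical
  have := Fintype.ofFinite S
  rw [Nat.card_eq_fintype_card]
  obtain ⟨t, rfl⟩ : ∃ u, t = u + 1 := ⟨t - 1, by omega⟩
  set s := Fintype.card S with hs
  have hs1 : 1 ≤ s := Fintype.card_pos
  have h1 : extremalNumber n J ≤ ⌊(s : ℝ) * (n : ℝ) ^ (2 - 1 / ((t + 1 : ℕ) : ℝ))⌋₊ := by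
    apply ex_le_of_forall
    intro G hG
    apply Nat.le_floor
    by_contra hlt
    push Not at hlt
    rcases Nat.eq_zero_or_pos n with rfl | hn
    · have : G.edgeSet.ncard = 0 := by
        rw [Set.ncard_eq_zero (Set.toFinite _)]
        ext e
        induction e using Sym2.ind with
        | _ x y => exact x.elim0
      rw [this] at hlt
      have : (0 : ℝ) ≤ (s : ℝ) * ((0 : ℕ) : ℝ) ^ (2 - 1 / ((t + 1 : ℕ) : ℝ)) := by positivity
      rw [Nat.cast_zero] at hlt
      linarith
    · have : Nonempty (Fin n) := ⟨⟨0, hn⟩⟩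
      apply hG
      have hn0 : (0 : ℝ) < n := by exact_mod_cast hn
      have hkey : (2 * s) ^ (t + 1) * Fintype.card (Fin n) ^ (2 * t + 1) ≤
          (2 * G.edgeSet.ncard) ^ (t + 1) := by
        rw [Fintype.card_fin]
        have e1 : ((n : ℝ) ^ (2 - 1 / ((t + 1 : ℕ) : ℝ))) ^ (t + 1) = (n : ℝ) ^ (2 * t + 1) := by
          rw [← Real.rpow_natCast, ← Real.rpow_mul hn0.le, ← Real.rpow_natCast]
          congr 1
          push_cast
          field_simp
          ring
        have e2 : (2 * (s : ℝ)) ^ (t + 1) * (n : ℝ) ^ (2 * t + 1) ≤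
            (2 * (G.edgeSet.ncard : ℝ)) ^ (t + 1) := by
          rw [← e1, ← mul_pow]
          apply pow_le_pow_left₀ (by positivity)
          rw [mul_assoc]
          linarith
        exact_mod_cast e2
      obtain ⟨A, hA, hR⟩ := aks_choose G s t hs1 hkey
      exact aks_embed hJ h A hA hR
  calc (extremalNumber n J : ℝ) ≤ (⌊(s : ℝ) * (n : ℝ) ^ (2 - 1 / ((t + 1 : ℕ) : ℝ))⌋₊ : ℝ) := by
        exact_mod_cast h1
    _ ≤ _ := Nat.floor_le (by positivity)

end Pool.Agent.H49.Glue
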