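import Mathlib
import Pool.Agent.H49.Glue.KST

set_option autoImplicit false

open Finset SimpleGraph

namespace Pool.Agent.H49.Glue

variable {V W U : Type}

/-- The edges of the good graph which have colour `i`. -/
def part {q : ℕ} (D : SimpleGraph V) (T : Sym2 V → Finset V) (c : V → Fin q) (i : Fin q) :
    SimpleGraph V where
  Adj x y := (goodGraph D T c).Adj x y ∧ c x = i
  symm := ⟨fun x y h => by
    refine ⟨h.1.symm, ?_⟩
    rw [h.1.2.1 y (Sym2.mem_mk_right _ _) x (Sym2.mem_mk_left _ _)]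
    exact h.2⟩
  loopless := ⟨fun x h => D.loopless.irrefl x h.1.1⟩

theorem ncard_good_le [Fintype V] {q : ℕ} (D : SimpleGraph V) (T : Sym2 V → Finset V)
    (c : V → Fin q) :
    (goodGraph D T c).edgeSet.ncard ≤ ∑ i, (part D T c i).edgeSet.ncard := by
  have h : (goodGraph D T c).edgeSet = ⋃ i, (part D T c i).edgeSet := by
    ext e
    induction e using Sym2.ind with
    | _ x y =>
      rw [Set.mem_iUnion]
      constructor
      · intro h
        exact ⟨c x, h, rfl⟩
      · rintro ⟨i, h⟩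
        exact h.1
  rw [h]
  exact Set.ncard_iUnion_le_of_fintype _

theorem ncard_le_sq [Fintype V] (D : SimpleGraph V) :
    D.edgeSet.ncard ≤ Fintype.card V ^ 2 := by
  classical
  rw [ncard_edgeSet]
  exact (card_edgeFinset_le_card_choose_two).trans (Nat.choose_le_pow _ _)

/-- The number of pairs of vertices with the same colour, over all colourings. -/
theorem sum_sq [Fintype V] [DecidableEq V] {q : ℕ} :
    q * ∑ c : V → Fin q, ∑ i, (univ.filter fun x => c x = i).card ^ 2 ≤
      q ^ Fintype.card V * (q * Fintype.card V + Fintype.card V ^ 2) := by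
  have h1 : ∀ c : V → Fin q, ∑ i, (univ.filter fun x => c x = i).card ^ 2 =
      ∑ x : V, ∑ y : V, if c y = c x then 1 else 0 := by
    intro c
    have e1 : ∀ i, (univ.filter fun x => c x = i).card ^ 2 =
        ∑ x ∈ univ.filter (fun x => c x = i), ∑ y : V, if c y = c x then 1 else 0 := by
      intro i
      rw [pow_two]
      conv_lhs => rw [← smul_eq_mul]
      rw [← Finset.sum_const]
      apply Finset.sum_congr rfl
      intro x hx
      rw [Finset.mem_filter] at hx
      rw [Finset.card_filter, hx.2]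
    rw [Finset.sum_congr rfl fun i _ => e1 i]
    exact Finset.sum_fiberwise _ _ _
  simp_rw [h1]
  rw [Finset.sum_comm]
  have h2 : ∀ x : V, ∑ c : V → Fin q, ∑ y : V, (if c y = c x then 1 else 0) =
      ∑ y : V, (univ.filter fun c : V → Fin q => c y = c x).card := by
    intro x
    rw [Finset.sum_comm]
    simp_rw [Finset.card_filter]
  simp_rw [h2]
  have hN : (univ : Finset (V → Fin q)).card = q ^ Fintype.card V := by
    rw [Finset.card_univ, Fintype.card_fun, Fintype.card_fin]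
  rw [Finset.mul_sum]
  have h3 : ∀ x : V, q * ∑ y : V, (univ.filter fun c : V → Fin q => c y = c x).card ≤
      q ^ Fintype.card V * q + Fintype.card V * q ^ Fintype.card V := by
    intro x
    rw [Finset.mul_sum]
    calc ∑ y : V, q * (univ.filter fun c : V → Fin q => c y = c x).card
        ≤ ∑ y : V, ((if y = x then q ^ Fintype.card V * q else 0) + q ^ Fintype.card V) := by
          apply Finset.sum_le_sum
          intro y _
          by_cases hyx : y = x
          · subst hyx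
            simp only [Finset.filter_true, if_true]
            rw [hN, mul_comm]
            exact Nat.le_add_right _ _
          · rw [if_neg hyx, zero_add]
            have h := card_update (q := q) (fun _ => True) x y (Ne.symm hyx) (by simp)
            simp only [true_and, Finset.filter_true] at h
            rw [h, hN]
      _ = _ := by
          rw [Finset.sum_add_distrib, Finset.sum_ite_eq' univ x, Finset.sum_const,
            smul_eq_mul, Finset.card_univ]
          simp
  calc ∑ x : V, q * ∑ y : V, (univ.filter fun c : V → Fin q => c y = c x).card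
      ≤ ∑ x : V, (q ^ Fintype.card V * q + Fintype.card V * q ^ Fintype.card V) :=
        Finset.sum_le_sum fun x _ => h3 x
    _ = Fintype.card V * (q ^ Fintype.card V * q + Fintype.card V * q ^ Fintype.card V) := by
        rw [Finset.sum_const, smul_eq_mul, Finset.card_univ]
    _ = _ := by ring

theorem rpow_split {r : ℕ} (hr : 1 ≤ r) (s A : ℝ) (hs : 0 ≤ s) (hA : 0 < A) :
    s ^ (2 - 1 / (r : ℝ)) ≤ A ^ (-(1 / (r : ℝ))) * (s ^ 2 + A ^ 2) := by
  have hr0 : (0 : ℝ) < r := by exact_mod_cast hr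
  have hr1 : 1 / (r : ℝ) ≤ 1 := by
    rw [div_le_one hr0]
    exact_mod_cast hr
  have hr2 : 0 ≤ 1 / (r : ℝ) := by positivity
  rcases le_or_gt A s with h | h
  · have hs0 : 0 < s := by linarith
    have e : s ^ (2 - 1 / (r : ℝ)) = s ^ (-(1 / (r : ℝ))) * s ^ 2 := by
      rw [← Real.rpow_natCast s 2, ← Real.rpow_add hs0]
      congr 1
      push_cast
      ring
    rw [e]
    have h1 : s ^ (-(1 / (r : ℝ))) ≤ A ^ (-(1 / (r : ℝ))) :=
      Real.rpow_le_rpow_of_nonpos hA h (by linarith)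
    have h2 : 0 ≤ A ^ (-(1 / (r : ℝ))) := by positivity
    nlinarith [sq_nonneg s, sq_nonneg A, mul_nonneg h2 (sq_nonneg A),
      mul_le_mul_of_nonneg_right h1 (sq_nonneg s)]
  · have e : A ^ (2 - 1 / (r : ℝ)) = A ^ (-(1 / (r : ℝ))) * A ^ 2 := by
      rw [← Real.rpow_natCast A 2, ← Real.rpow_add hA]
      congr 1
      push_cast
      ring
    have h1 : s ^ (2 - 1 / (r : ℝ)) ≤ A ^ (2 - 1 / (r : ℝ)) :=
      Real.rpow_le_rpow hs h.le (by linarith)
    have h2 : 0 ≤ A ^ (-(1 / (r : ℝ))) := by positivity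
    rw [e] at h1
    nlinarith [mul_nonneg h2 (sq_nonneg s)]

/-- By deleting at most `12 r ^ 2 τ ^ (1 / r) n ^ (2 - 1 / r)` edges one can make all edges
`τ`-robust for `K_{r,r}`. -/
theorem exists_robust_poly [Fintype V] [Nonempty V] (r : ℕ) (hr : 1 ≤ r) (τ : ℕ) (hτ : 1 ≤ τ)
    (G : SimpleGraph V) :
    ∃ K ≤ G, (G.edgeSet.ncard : ℝ) ≤ K.edgeSet.ncard +
        12 * (r : ℝ) ^ 2 * (τ : ℝ) ^ (1 / (r : ℝ)) * (Fintype.card V : ℝ) ^ (2 - 1 / (r : ℝ)) ∧
      ∀ x y, K.Adj x y → Robust (Krr r) τ K x y := by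
  classical
  obtain ⟨K, hK, hKr, T, hT1, hT2, hT3⟩ := core (Krr r) τ _ G le_rfl
  refine ⟨K, hK, ?_, hKr⟩
  rw [ncard_sdiff_add hK]
  push_cast
  apply add_le_add_right
  set n := Fintype.card V with hn
  have hn0 : (0 : ℝ) < n := by
    have : 0 < Fintype.card V := Fintype.card_pos
    exact_mod_cast this
  have hr0 : (0 : ℝ) < r := by exact_mod_cast hr
  have hr1' : (1 : ℝ) ≤ r := by exact_mod_cast hr
  have hr1 : 1 / (r : ℝ) ≤ 1 := by
    rw [div_le_one hr0]
    exact_mod_cast hr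
  have hr2 : 0 ≤ 1 / (r : ℝ) := by positivity
  have hτ0 : (1 : ℝ) ≤ τ := by exact_mod_cast hτ
  have h2r : (2 : ℝ) ^ (1 / (r : ℝ)) ≤ 2 := by
    calc (2 : ℝ) ^ (1 / (r : ℝ)) ≤ (2 : ℝ) ^ (1 : ℝ) :=
          Real.rpow_le_rpow_of_exponent_le (by norm_num) hr1
      _ = 2 := by norm_num
  have hsplit : (n : ℝ) ^ (2 - 1 / (r : ℝ)) = (n : ℝ) ^ 2 * (n : ℝ) ^ (-(1 / (r : ℝ))) := by
    rw [← Real.rpow_natCast (n : ℝ) 2, ← Real.rpow_add hn0]
    congr 1
  have hr21 : (1 : ℝ) ≤ (r : ℝ) ^ 2 := one_le_pow₀ hr1'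
  rcases lt_or_ge n (2 * τ) with hlt | hge
  · -- few vertices
    have h1 : ((G \ K).edgeSet.ncard : ℝ) ≤ (n : ℝ) ^ 2 := by
      have : (G \ K).edgeSet.ncard ≤ n ^ 2 := by
        exact ncard_le_sq (G \ K)
      exact_mod_cast this
    refine h1.trans ?_
    rw [hsplit]
    have h3 : (1 : ℝ) ≤ 2 * (τ : ℝ) ^ (1 / (r : ℝ)) * (n : ℝ) ^ (-(1 / (r : ℝ))) := by
      have h4 : (n : ℝ) ^ (1 / (r : ℝ)) ≤ 2 * (τ : ℝ) ^ (1 / (r : ℝ)) := by
        calc (n : ℝ) ^ (1 / (r : ℝ)) ≤ (2 * (τ : ℝ)) ^ (1 / (r : ℝ)) := by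
              apply Real.rpow_le_rpow hn0.le _ hr2
              have : (n : ℝ) < ((2 * τ : ℕ) : ℝ) := by exact_mod_cast hlt
              push_cast at this
              exact this.le
          _ = (2 : ℝ) ^ (1 / (r : ℝ)) * (τ : ℝ) ^ (1 / (r : ℝ)) :=
              Real.mul_rpow (by norm_num) (by linarith)
          _ ≤ _ := mul_le_mul_of_nonneg_right h2r (by positivity)
      rw [Real.rpow_neg hn0.le, ← div_eq_mul_inv, le_div_iff₀ (by positivity), one_mul]
      exact h4
    have h5 : (0 : ℝ) ≤ (n : ℝ) ^ 2 := by positivity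
    calc (n : ℝ) ^ 2 = 1 * 1 * (n : ℝ) ^ 2 := by ring
      _ ≤ (6 * (r : ℝ) ^ 2) * (2 * (τ : ℝ) ^ (1 / (r : ℝ)) * (n : ℝ) ^ (-(1 / (r : ℝ)))) *
          (n : ℝ) ^ 2 := by
          apply mul_le_mul_of_nonneg_right _ h5
          apply mul_le_mul _ h3 (by norm_num) (by positivity)
          linarith
      _ = _ := by ring
  · -- the main case
    set q := 2 * τ with hq
    set N : ℕ := q ^ Fintype.card V with hN
    have hNpos : (0 : ℝ) < N := by
      have : 0 < N := by
        rw [hN]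
        exact pow_pos (by omega) _
      exact_mod_cast this
    have hq0 : (0 : ℝ) < q := by
      have : 0 < q := by omega
      exact_mod_cast this
    have hqn : (q : ℝ) ≤ n := by exact_mod_cast hge
    set A : ℝ := (n : ℝ) / q with hA
    have hA0 : 0 < A := by positivity
    set B : ℝ := A ^ (-(1 / (r : ℝ))) with hB
    have hB0 : 0 ≤ B := by positivity
    have h1 := sum_good (q := q) T hT1 hT2 (G \ K)
    simp_rw [card_filter_good] at h1
    rw [← ncard_edgeSet, ← hN] at h1
    have h1' : (q : ℝ) * N * (G \ K).edgeSet.ncard ≤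
        (q : ℝ) ^ 2 * ∑ c : V → Fin q, ((goodGraph (G \ K) T c).edgeSet.ncard : ℝ) +
        τ * N * (G \ K).edgeSet.ncard := by exact_mod_cast h1
    have h2 : ∀ c : V → Fin q, ((goodGraph (G \ K) T c).edgeSet.ncard : ℝ) ≤
        ∑ i, (r : ℝ) ^ 2 * (B * (((univ.filter fun x => c x = i).card : ℝ) ^ 2 + A ^ 2)) := by
      intro c
      have h3 : ((goodGraph (G \ K) T c).edgeSet.ncard : ℝ) ≤
          ∑ i, ((part (G \ K) T c i).edgeSet.ncard : ℝ) := by
        exact_mod_cast ncard_good_le _ _ _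
      refine h3.trans (Finset.sum_le_sum fun i _ => ?_)
      have hfree : (Krr r).Free (part (G \ K) T c i) := by
        intro hcon
        apply goodGraph_free (krr_preconnected r hr)
          ⟨Sum.inl ⟨0, by omega⟩, krr_iso r hr _⟩ hT3 c
        exact hcon.trans (IsContained.of_le fun x y h => h.1)
      have hkst := kst hr hfree (univ.filter fun x => c x = i) (by
        intro x y hxy
        rw [Finset.mem_filter]
        refine ⟨Finset.mem_univ _, ?_⟩
        rw [← hxy.2]
        exact hxy.1.2.1 y (Sym2.mem_mk_right _ _) x (Sym2.mem_mk_left _ _))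
      refine hkst.trans ?_
      apply mul_le_mul_of_nonneg_left _ (by positivity)
      exact rpow_split hr _ A (by positivity) hA0
    have h4 : ∑ c : V → Fin q, ((goodGraph (G \ K) T c).edgeSet.ncard : ℝ) ≤
        (r : ℝ) ^ 2 * (B * (∑ c : V → Fin q, ∑ i,
          ((univ.filter fun x => c x = i).card : ℝ) ^ 2 + N * (q * A ^ 2))) := by
      refine (Finset.sum_le_sum fun c _ => h2 c).trans (le_of_eq ?_)
      simp_rw [← Finset.mul_sum]
      congr 2
      simp_rw [Finset.sum_add_distrib]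
      congr 1
      rw [Finset.sum_const, Finset.sum_const, Finset.card_univ, Finset.card_univ,
        Fintype.card_fun, Fintype.card_fin, hN]
      simp
    have h5 : (q : ℝ) * ∑ c : V → Fin q, ∑ i, ((univ.filter fun x => c x = i).card : ℝ) ^ 2 ≤
        N * (q * n + (n : ℝ) ^ 2) := by
      have := sum_sq (V := V) (q := q)
      rw [← hN, ← hn] at this
      exact_mod_cast this
    have hqA : (q : ℝ) * (q * A ^ 2) = (n : ℝ) ^ 2 := by
      rw [hA]
      field_simp
    have h6 : (q : ℝ) * ∑ c : V → Fin q, ((goodGraph (G \ K) T c).edgeSet.ncard : ℝ) ≤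
        (r : ℝ) ^ 2 * (B * (N * (3 * (n : ℝ) ^ 2))) := by
      calc (q : ℝ) * ∑ c : V → Fin q, ((goodGraph (G \ K) T c).edgeSet.ncard : ℝ)
          ≤ (q : ℝ) * ((r : ℝ) ^ 2 * (B * (∑ c : V → Fin q, ∑ i,
            ((univ.filter fun x => c x = i).card : ℝ) ^ 2 + N * (q * A ^ 2)))) :=
            mul_le_mul_of_nonneg_left h4 hq0.le
        _ = (r : ℝ) ^ 2 * (B * (q * (∑ c : V → Fin q, ∑ i,
            ((univ.filter fun x => c x = i).card : ℝ) ^ 2) + N * (q * (q * A ^ 2)))) := by ring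
        _ ≤ (r : ℝ) ^ 2 * (B * (N * (q * n + (n : ℝ) ^ 2) + N * (n : ℝ) ^ 2)) := by
            rw [hqA]
            apply mul_le_mul_of_nonneg_left _ (by positivity)
            apply mul_le_mul_of_nonneg_left _ hB0
            linarith
        _ ≤ (r : ℝ) ^ 2 * (B * (N * (3 * (n : ℝ) ^ 2))) := by
            apply mul_le_mul_of_nonneg_left _ (by positivity)
            apply mul_le_mul_of_nonneg_left _ hB0
            have : (q : ℝ) * n ≤ (n : ℝ) ^ 2 := by nlinarith
            nlinarith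
    have hqτ : (q : ℝ) = 2 * τ := by
      rw [hq]
      push_cast
      ring
    have h7 : (τ : ℝ) * N * (G \ K).edgeSet.ncard ≤
        (q : ℝ) * ((r : ℝ) ^ 2 * (B * (N * (3 * (n : ℝ) ^ 2)))) := by
      have h8 : (q : ℝ) ^ 2 * ∑ c : V → Fin q, ((goodGraph (G \ K) T c).edgeSet.ncard : ℝ) ≤
          (q : ℝ) * ((r : ℝ) ^ 2 * (B * (N * (3 * (n : ℝ) ^ 2)))) := by
        rw [pow_two, mul_assoc]
        exact mul_le_mul_of_nonneg_left h6 hq0.le
      rw [hqτ] at h1' h8 ⊢
      nlinarith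
    have h9 : ((G \ K).edgeSet.ncard : ℝ) ≤ 6 * (r : ℝ) ^ 2 * B * (n : ℝ) ^ 2 := by
      have hτN : (0 : ℝ) < τ * N := by positivity
      rw [hqτ] at h7
      have : (τ : ℝ) * N * (G \ K).edgeSet.ncard ≤
          (τ : ℝ) * N * (6 * (r : ℝ) ^ 2 * B * (n : ℝ) ^ 2) := by
        linarith
      exact le_of_mul_le_mul_left this hτN
    refine h9.trans ?_
    have hBle : B ≤ 2 * (τ : ℝ) ^ (1 / (r : ℝ)) * (n : ℝ) ^ (-(1 / (r : ℝ))) := by
      rw [hB, hA, Real.div_rpow hn0.le hq0.le, Real.rpow_neg hq0.le, div_inv_eq_mul, hqτ,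
        Real.mul_rpow (by norm_num) (by linarith)]
      have : (0 : ℝ) ≤ (n : ℝ) ^ (-(1 / (r : ℝ))) * (τ : ℝ) ^ (1 / (r : ℝ)) := by positivity
      nlinarith
    rw [hsplit]
    calc 6 * (r : ℝ) ^ 2 * B * (n : ℝ) ^ 2
        ≤ 6 * (r : ℝ) ^ 2 * (2 * (τ : ℝ) ^ (1 / (r : ℝ)) * (n : ℝ) ^ (-(1 / (r : ℝ)))) *
          (n : ℝ) ^ 2 := by
          apply mul_le_mul_of_nonneg_right _ (by positivity)
          exact mul_le_mul_of_nonneg_left hBle (by positivity)
      _ = _ := by ring

end Pool.Agent.H49.Glue
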